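import Pool.Agent.H827Z.Net.Defs

set_option autoImplicit false
set_option linter.unusedSectionVars false

open Set Filter Topology
open scoped ContDiff

namespace Pool.Agent.H827Z.Net

section Bd

variable {E F : Type*} [NormedAddCommGroup E] [NormedSpace ℝ E] [NormedAddCommGroup F]
  [NormedSpace ℝ F]

/-- smooth, bounded, with bounded derivative -/
def Bd (u : E → F) : Prop := ContDiff ℝ ∞ u ∧ ∃ M, ∀ z, ‖u z‖ ≤ M ∧ ‖fderiv ℝ u z‖ ≤ M

theorem Bd.diff {u : E → F} (h : Bd u) : Differentiable ℝ u := h.1.differentiable (by simp)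

theorem Bd.const (v : F) : Bd fun _ : E => v :=
  ⟨contDiff_const, ‖v‖, fun z => ⟨le_rfl, by simp⟩⟩

theorem Bd.add {u w : E → F} (hu : Bd u) (hw : Bd w) : Bd fun z => u z + w z := by
  obtain ⟨M, hM⟩ := hu.2
  obtain ⟨N, hN⟩ := hw.2
  refine ⟨hu.1.add hw.1, M + N, fun z => ⟨(norm_add_le _ _).trans (add_le_add (hM z).1 (hN z).1), ?_⟩⟩
  rw [fderiv_fun_add (hu.diff z) (hw.diff z)]
  exact (norm_add_le _ _).trans (add_le_add (hM z).2 (hN z).2)

theorem Bd.smul {u : E → ℝ} {w : E → F} (hu : Bd u) (hw : Bd w) : Bd fun z => u z • w z := by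
  obtain ⟨M, hM⟩ := hu.2
  obtain ⟨N, hN⟩ := hw.2
  have hM0 : 0 ≤ M := (norm_nonneg _).trans (hM 0).1
  have hN0 : 0 ≤ N := (norm_nonneg _).trans (hN 0).1
  refine ⟨hu.1.smul hw.1, M * N + M * N, fun z => ⟨?_, ?_⟩⟩
  · rw [norm_smul]
    have := mul_le_mul (hM z).1 (hN z).1 (norm_nonneg _) hM0
    have := mul_nonneg hM0 hN0
    linarith
  · rw [fderiv_fun_smul (hu.diff z) (hw.diff z)]
    refine (norm_add_le _ _).trans (add_le_add ?_ ?_)
    · rw [norm_smul]; exact mul_le_mul (hM z).1 (hN z).2 (norm_nonneg _) hM0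
    · rw [ContinuousLinearMap.norm_smulRight_apply]
      exact mul_le_mul (hM z).2 (hN z).1 (norm_nonneg _) hM0

theorem Bd.const_smul {w : E → F} (c : ℝ) (hw : Bd w) : Bd fun z => c • w z :=
  (Bd.const c).smul hw

theorem Bd.one_sub {u : E → ℝ} (hu : Bd u) : Bd fun z => 1 - u z := by
  have := (Bd.const (E := E) (1 : ℝ)).add (hu.const_smul (-1))
  simpa [sub_eq_add_neg] using this

theorem Bd.prod {ι : Type*} (s : Finset ι) {u : ι → E → ℝ} (hu : ∀ i ∈ s, Bd (u i)) :
    Bd fun z => ∏ i ∈ s, u i z := by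
  classical
  induction s using Finset.induction_on with
  | empty => simpa using Bd.const (1 : ℝ)
  | insert a s ha ih =>
    simp only [Finset.prod_insert ha]
    exact (hu a (Finset.mem_insert_self _ _)).smul
      (ih fun i hi => hu i (Finset.mem_insert_of_mem hi))

theorem Bd.sum {ι : Type*} (s : Finset ι) {u : ι → E → F} (hu : ∀ i ∈ s, Bd (u i)) :
    Bd fun z => ∑ i ∈ s, u i z := by
  classical
  induction s using Finset.induction_on with
  | empty => simpa using Bd.const (0 : F)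
  | insert a s ha ih =>
    simp only [Finset.sum_insert ha]
    exact (hu a (Finset.mem_insert_self _ _)).add
      (ih fun i hi => hu i (Finset.mem_insert_of_mem hi))

theorem Bd.bump [FiniteDimensional ℝ F] (b : ContDiffBump (0 : F)) (Λ : E →L[ℝ] F) (a : F) :
    Bd fun z => b (Λ z - a) := by
  have hb : ContDiff ℝ ∞ b := b.contDiff
  obtain ⟨M, hM⟩ := (hb.continuous_fderiv (by simp)).bounded_above_of_compact_support
    (b.hasCompactSupport.fderiv (𝕜 := ℝ))
  refine ⟨hb.comp (Λ.contDiff.sub contDiff_const), 1 + M * ‖Λ‖, fun z => ⟨?_, ?_⟩⟩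
  · have : 0 ≤ M * ‖Λ‖ := mul_nonneg ((norm_nonneg _).trans (hM 0)) (norm_nonneg _)
    rw [Real.norm_eq_abs, abs_of_nonneg b.nonneg]
    linarith [b.le_one (x := Λ z - a)]
  · have h1 : HasFDerivAt (fun z => b (Λ z - a)) ((fderiv ℝ b (Λ z - a)).comp Λ) z :=
      HasFDerivAt.comp (g := b) (f := fun z => Λ z - a) z
        (hb.differentiable (by simp) (Λ z - a)).hasFDerivAt (Λ.hasFDerivAt.sub_const a)
    rw [h1.fderiv]
    have := (ContinuousLinearMap.opNorm_comp_le _ Λ).trans
      (mul_le_mul_of_nonneg_right (hM (Λ z - a)) (norm_nonneg Λ))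
    linarith

end Bd

variable {C A L : Type} {V : L → Type} [∀ l, NormedAddCommGroup (V l)] [∀ l, NormedSpace ℝ (V l)]

open Classical in
/-- transport between state spaces with equal labels -/
noncomputable def tr (V : L → Type) [∀ l, NormedAddCommGroup (V l)] [∀ l, NormedSpace ℝ (V l)]
    (l l' : L) : V l →L[ℝ] V l' :=
  if h : l = l' then h ▸ ContinuousLinearMap.id ℝ (V l) else 0

@[simp] theorem tr_self (l : L) (v : V l) : tr V l l v = v := by simp [tr]

theorem norm_tr_le (l l' : L) (v : V l) : ‖tr V l l' v‖ ≤ ‖v‖ := by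
  by_cases h : l = l'
  · subst h; simp
  · simp [tr, h]

theorem sig_iff {l l' : L} {v : V l} {w : V l'} :
    (⟨l, v⟩ : Σ l, V l) = ⟨l', w⟩ ↔ l = l' ∧ tr V l l' v = w := by
  constructor
  · intro h
    cases h
    simp
  · rintro ⟨rfl, h⟩
    rw [tr_self] at h
    rw [h]

theorem tr_congr {l l' : L} {v : V l} {w : V l'} (h : (⟨l, v⟩ : Σ l, V l) = ⟨l', w⟩) (k : L) :
    tr V l k v = tr V l' k w := by
  cases h; rfl

theorem tr_tr {l l' : L} (h : l = l') (k : L) (v : V k) :
    tr V l l' (tr V k l v) = tr V k l' v := by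
  subst h; simp

theorem tr_tr' {l l' : L} (h : l = l') (k : L) (v : V l) :
    tr V l' k (tr V l l' v) = tr V l k v := by
  subst h; simp

theorem tr_eq_zero {l l' : L} (h : l = l') {v : V l} : tr V l l' v = 0 ↔ v = 0 := by
  subst h; simp

theorem st_iff {sp : C → L} {x y : ∀ c, V (sp c)} {c d : C} :
    st sp x c = st sp y d ↔ sp c = sp d ∧ tr V (sp c) (sp d) (x c) = y d := sig_iff

variable (G : Network C A) (sp : C → L)

/-- the input tuples of `c` at `x` and of `d` at `y` match along `β` -/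
def Match {c d : C} (β : G.In c ≃ G.In d) (x y : ∀ c, V (sp c)) : Prop :=
  st sp x c = st sp y d ∧ ∀ e : G.In c, st sp x (G.tail e.1) = st sp y (G.tail (β e).1)

/-- admissibility without component functions -/
def PB (f : (∀ c, V (sp c)) → ∀ c, V (sp c)) : Prop :=
  ∀ (c d : C) (β : G.In c ≃ G.In d), G.IsIso β → ∀ x y, Match G sp β x y →
    st sp (f x) c = st sp (f y) d

variable {G sp}

theorem isIso_refl (c : C) : G.IsIso (Equiv.refl (G.In c)) :=
  ⟨G.nodeT.refl c, fun e => G.arrT.refl _⟩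

theorem Network.IsIso.symm {c d : C} {β : G.In c ≃ G.In d} (h : G.IsIso β) : G.IsIso β.symm :=
  ⟨G.nodeT.symm h.1, fun e => by
    have := h.2 (β.symm e)
    rw [Equiv.apply_symm_apply] at this
    exact G.arrT.symm this⟩

theorem Network.IsIso.trans {c d k : C} {β : G.In c ≃ G.In d} {γ : G.In d ≃ G.In k}
    (h : G.IsIso β) (h' : G.IsIso γ) : G.IsIso (β.trans γ) :=
  ⟨G.nodeT.trans h.1 h'.1, fun e => G.arrT.trans (h.2 e) (h'.2 (β e))⟩

theorem Match.refl (c : C) (x : ∀ c, V (sp c)) : Match G sp (Equiv.refl (G.In c)) x x :=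
  ⟨rfl, fun _ => rfl⟩

theorem Match.symm {c d : C} {β : G.In c ≃ G.In d} {x y : ∀ c, V (sp c)}
    (h : Match G sp β x y) : Match G sp β.symm y x :=
  ⟨h.1.symm, fun e => by
    have := h.2 (β.symm e)
    rw [Equiv.apply_symm_apply] at this
    exact this.symm⟩

theorem Match.trans {c d k : C} {β : G.In c ≃ G.In d} {γ : G.In d ≃ G.In k}
    {x y z : ∀ c, V (sp c)} (h : Match G sp β x y) (h' : Match G sp γ y z) :
    Match G sp (β.trans γ) x z :=
  ⟨h.1.trans h'.1, fun e => (h.2 e).trans (h'.2 (β e))⟩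

theorem admissible_iff {f : (∀ c, V (sp c)) → ∀ c, V (sp c)} : G.Admissible sp f ↔ PB G sp f := by
  constructor
  · rintro ⟨fh, h1, h2⟩ c d β hβ x y hm
    rw [h1, h2 c d β hβ, hm.1]
    congr 1
    exact funext hm.2
  · intro h
    classical
    let fh : ∀ c : C, (Σ l, V l) → (G.In c → Σ l, V l) → Σ l, V l := fun c s σ =>
      if H : ∃ t : Σ d : C, (G.In c ≃ G.In d) × (∀ c, V (sp c)), G.IsIso t.2.1 ∧
          st sp t.2.2 t.1 = s ∧ ∀ e, st sp t.2.2 (G.tail (t.2.1 e).1) = σ e then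
        st sp (f H.choose.2.2) H.choose.1 else s
    have key : ∀ (c d : C) (β : G.In c ≃ G.In d), G.IsIso β → ∀ x,
        st sp (f x) d = fh c (st sp x d) fun e => st sp x (G.tail (β e).1) := by
      intro c d β hβ x
      have H : ∃ t : Σ d : C, (G.In c ≃ G.In d) × (∀ c, V (sp c)), G.IsIso t.2.1 ∧
          st sp t.2.2 t.1 = st sp x d ∧
            ∀ e, st sp t.2.2 (G.tail (t.2.1 e).1) = st sp x (G.tail (β e).1) :=
        ⟨⟨d, β, x⟩, hβ, rfl, fun _ => rfl⟩
      simp only [fh, dif_pos H]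
      obtain ⟨h1, h2, h3⟩ := H.choose_spec
      refine h d _ (β.symm.trans H.choose.2.1) (hβ.symm.trans h1) x _ ⟨h2.symm, fun e => ?_⟩
      rw [Equiv.trans_apply, h3, Equiv.apply_symm_apply]
    exact ⟨fh, fun c x => key c c (Equiv.refl _) (isIso_refl c) x, key⟩

theorem PB.add {f g : (∀ c, V (sp c)) → ∀ c, V (sp c)} (hf : PB G sp f) (hg : PB G sp g) :
    PB G sp fun z => f z + g z := by
  intro c d β hβ x y hm
  have h1 := st_iff.1 (hf c d β hβ x y hm)
  have h2 := st_iff.1 (hg c d β hβ x y hm)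
  exact st_iff.2 ⟨h1.1, by simp only [Pi.add_apply, map_add, h1.2, h2.2]⟩

theorem PB.smul {f : (∀ c, V (sp c)) → ∀ c, V (sp c)} (hf : PB G sp f) (a : ℝ) :
    PB G sp fun z => a • f z := by
  intro c d β hβ x y hm
  have h1 := st_iff.1 (hf c d β hβ x y hm)
  exact st_iff.2 ⟨h1.1, by simp only [Pi.smul_apply, map_smul, h1.2]⟩

theorem PB.zero : PB G sp fun _ : ∀ c, V (sp c) => 0 := by
  intro c d β _ x y hm
  exact st_iff.2 ⟨(st_iff.1 hm.1).1, by simp⟩

theorem PB.sum {ι : Type*} (s : Finset ι) {f : ι → (∀ c, V (sp c)) → ∀ c, V (sp c)}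
    (hf : ∀ i ∈ s, PB G sp (f i)) : PB G sp fun z => ∑ i ∈ s, f i z := by
  classical
  induction s using Finset.induction_on with
  | empty => simpa using PB.zero
  | insert a s ha ih =>
    simp only [Finset.sum_insert ha]
    exact (hf a (Finset.mem_insert_self _ _)).add
      (ih fun i hi => hf i (Finset.mem_insert_of_mem hi))

/-- an admissible map at node `c` depends only on the node and its inputs -/
theorem PB.dep {f : (∀ c, V (sp c)) → ∀ c, V (sp c)} (hf : PB G sp f) {c : C}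
    {x y : ∀ c, V (sp c)} (h1 : x c = y c) (h2 : ∀ e : G.In c, x (G.tail e.1) = y (G.tail e.1)) :
    f x c = f y c := by
  have := hf c c (Equiv.refl _) (isIso_refl c) x y
    ⟨by simp [st, h1], fun e => by simp [st, h2 e]⟩
  simpa using (st_iff.1 this).2

variable [Fintype C] [Fintype A] [∀ l, FiniteDimensional ℝ (V l)]

/-- bump of radius one over n plus one -/
noncomputable def bmp (V : L → Type) [∀ l, NormedAddCommGroup (V l)] [∀ l, NormedSpace ℝ (V l)]
    (n : ℕ) (l : L) : ContDiffBump (0 : V l) :=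
  ⟨1 / ((n : ℝ) + 1) / 2, 1 / ((n : ℝ) + 1), by positivity, half_lt_self (by positivity)⟩

theorem bmp_zero (n : ℕ) (l : L) : bmp V n l 0 = 1 :=
  (bmp V n l).one_of_mem_closedBall (Metric.mem_closedBall_self (bmp V n l).rIn_pos.le)

theorem bmp_ev {l : L} {v : V l} (hv : v ≠ 0) : ∀ᶠ n in atTop, bmp V n l v = 0 := by
  filter_upwards [tendsto_one_div_add_atTop_nhds_zero_nat.eventually
    (gt_mem_nhds (norm_pos_iff.2 hv))] with n hn
  exact (bmp V n l).zero_of_le_dist (by rw [dist_zero_right]; exact hn.le)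

open Classical in
/-- closeness of an input tuple to the tuple of `c` at `a` -/
noncomputable def phi (G : Network C A) (sp : C → L) (n : ℕ) {c j : C} (β : G.In c ≃ G.In j)
    (a z : ∀ c, V (sp c)) : ℝ :=
  bmp V n (sp c) (tr V (sp j) (sp c) (z j) - a c) *
    ∏ e : G.In c, bmp V n (sp (G.tail e.1))
      (tr V (sp (G.tail (β e).1)) (sp (G.tail e.1)) (z (G.tail (β e).1)) - a (G.tail e.1))

open Classical in
/-- the weight of the perturbation at node `j` -/
noncomputable def psi (G : Network C A) (sp : C → L) (n : ℕ) (c j : C) (a z : ∀ c, V (sp c)) : ℝ :=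
  1 - ∏ β ∈ Finset.univ.filter fun β : G.In c ≃ G.In j => G.IsIso β, (1 - phi G sp n β a z)

/-- the bump perturbation -/
noncomputable def pert (G : Network C A) (sp : C → L) (n : ℕ) (c : C) (a : ∀ c, V (sp c))
    (v : V (sp c)) (z : ∀ c, V (sp c)) : ∀ c, V (sp c) :=
  fun j => psi G sp n c j a z • tr V (sp c) (sp j) v

theorem phi_mem (n : ℕ) {c j : C} (β : G.In c ≃ G.In j) (a z : ∀ c, V (sp c)) :
    phi G sp n β a z ∈ Icc (0 : ℝ) 1 := by
  classical
  unfold phi
  have h1 := Finset.prod_nonneg (s := Finset.univ) fun (e : G.In c) _ =>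
    (bmp V n (sp (G.tail e.1))).nonneg
      (x := tr V (sp (G.tail (β e).1)) (sp (G.tail e.1)) (z (G.tail (β e).1)) - a (G.tail e.1))
  refine ⟨mul_nonneg (bmp V n _).nonneg (by convert h1), mul_le_one₀ (bmp V n _).le_one
    (by convert h1) ?_⟩
  exact Finset.prod_le_one (fun _ _ => (bmp V n _).nonneg) fun _ _ => (bmp V n _).le_one

theorem psi_mem (n : ℕ) (c j : C) (a z : ∀ c, V (sp c)) : psi G sp n c j a z ∈ Icc (0 : ℝ) 1 := by
  unfold psi
  constructor
  · rw [sub_nonneg]
    exact Finset.prod_le_one (fun β _ => sub_nonneg.2 (phi_mem n β a z).2)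
      fun β _ => sub_le_self _ (phi_mem n β a z).1
  · exact sub_le_self _ (Finset.prod_nonneg fun β _ => sub_nonneg.2 (phi_mem n β a z).2)

theorem pert_norm (n : ℕ) (c : C) (a : ∀ c, V (sp c)) (v : V (sp c)) (z : ∀ c, V (sp c)) :
    ‖pert G sp n c a v z‖ ≤ ‖v‖ := by
  rw [pi_norm_le_iff_of_nonneg (norm_nonneg _)]
  intro j
  simp only [pert]
  rw [norm_smul, Real.norm_eq_abs, abs_of_nonneg (psi_mem n c j a z).1]
  exact (mul_le_of_le_one_left (norm_nonneg _) (psi_mem n c j a z).2).trans (norm_tr_le _ _ _)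

theorem pert_match (n : ℕ) {c j : C} {a z : ∀ c, V (sp c)} (v : V (sp c)) {β : G.In c ≃ G.In j}
    (hβ : G.IsIso β) (hm : Match G sp β a z) :
    pert G sp n c a v z j = tr V (sp c) (sp j) v := by
  have h1 : phi G sp n β a z = 1 := by
    unfold phi
    rw [(st_iff.1 hm.1.symm).2, sub_self, bmp_zero, one_mul]
    exact Finset.prod_eq_one fun e _ => by rw [(st_iff.1 (hm.2 e).symm).2, sub_self, bmp_zero]
  have h2 : psi G sp n c j a z = 1 := by
    unfold psi
    rw [Finset.prod_eq_zero (i := β) (by simp [hβ]) (by rw [h1, sub_self]), sub_zero]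
  simp only [pert, h2, one_smul]

theorem pert_ev (hsp : ∀ c d, G.nodeT c d → sp c = sp d) {c j : C} {a z : ∀ c, V (sp c)}
    (v : V (sp c)) (h : ¬ ∃ β : G.In c ≃ G.In j, G.IsIso β ∧ Match G sp β a z) :
    ∀ᶠ n in atTop, pert G sp n c a v z j = 0 := by
  classical
  have h1 : ∀ β : G.In c ≃ G.In j, ∀ᶠ n in atTop, G.IsIso β → phi G sp n β a z = 0 := by
    intro β
    by_cases hβ : G.IsIso β
    · have h2 : ¬ Match G sp β a z := fun hm => h ⟨β, hβ, hm⟩
      rw [Match, not_and_or, not_forall] at h2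
      rcases h2 with h2 | ⟨e, h2⟩
      · have h3 : tr V (sp j) (sp c) (z j) - a c ≠ 0 := fun h3 =>
          h2 (st_iff.2 ⟨(hsp _ _ hβ.1).symm, sub_eq_zero.1 h3⟩).symm
        filter_upwards [bmp_ev h3] with n hn _
        simp only [phi, hn, zero_mul]
      · have h3 : tr V (sp (G.tail (β e).1)) (sp (G.tail e.1)) (z (G.tail (β e).1)) -
            a (G.tail e.1) ≠ 0 := fun h3 =>
          h2 (st_iff.2 ⟨(hsp _ _ (G.tail_type _ _ (hβ.2 e))).symm, sub_eq_zero.1 h3⟩).symm
        filter_upwards [bmp_ev h3] with n hn _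
        unfold phi
        rw [Finset.prod_eq_zero (Finset.mem_univ e) hn, mul_zero]
    · simp [hβ]
  filter_upwards [eventually_all.2 h1] with n hn
  have h2 : psi G sp n c j a z = 0 := by
    unfold psi
    rw [Finset.prod_eq_one fun β hβ => by rw [hn β (Finset.mem_filter.1 hβ).2, sub_zero], sub_self]
  simp only [pert, h2, zero_smul]

theorem pert_pb (n : ℕ) (c : C) (a : ∀ c, V (sp c)) (v : V (sp c)) :
    PB G sp (pert G sp n c a v) := by
  classical
  intro j k γ hγ x y hm
  have h1 : psi G sp n c j a x = psi G sp n c k a y := by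
    unfold psi
    congr 1
    refine Finset.prod_bij' (fun β _ => β.trans γ) (fun β _ => β.trans γ.symm) ?_ ?_ ?_ ?_ ?_
    · intro β hβ
      simp only [Finset.mem_filter, Finset.mem_univ, true_and] at hβ ⊢
      exact hβ.trans hγ
    · intro β hβ
      simp only [Finset.mem_filter, Finset.mem_univ, true_and] at hβ ⊢
      exact hβ.trans hγ.symm
    · intro β _; ext e; simp
    · intro β _; ext e; simp
    · intro β _
      unfold phi
      rw [tr_congr hm.1]
      congr 2
      refine Finset.prod_congr rfl fun e _ => ?_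
      rw [tr_congr (hm.2 (β e))]
      rfl
  have h2 := (st_iff.1 hm.1).1
  refine st_iff.2 ⟨h2, ?_⟩
  simp only [pert, map_smul, h1, tr_tr h2]

theorem pert_bd (n : ℕ) (c : C) (a : ∀ c, V (sp c)) (v : V (sp c)) :
    Bd (pert G sp n c a v) := by
  classical
  have h1 : ∀ j, Bd fun z => psi G sp n c j a z := by
    intro j
    unfold psi
    refine Bd.one_sub (Bd.prod _ fun β _ => Bd.one_sub ?_)
    unfold phi
    refine Bd.smul (Bd.bump _ ((tr V (sp j) (sp c)).comp
      (ContinuousLinearMap.proj (R := ℝ) (φ := fun c => V (sp c)) j)) _)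
      (Bd.prod _ fun e _ => Bd.bump _ ((tr V (sp (G.tail (β e).1)) (sp (G.tail e.1))).comp
        (ContinuousLinearMap.proj (R := ℝ) (φ := fun c => V (sp c)) (G.tail (β e).1))) _)
  have h2 : pert G sp n c a v = fun z => ∑ j, psi G sp n c j a z •
      (Pi.single j (tr V (sp c) (sp j) v) : ∀ c, V (sp c)) := by
    funext z k
    rw [Finset.sum_apply, Finset.sum_eq_single k]
    · simp [pert]
    · intro b _ hb
      simp [Pi.single_eq_of_ne hb.symm]
    · simp
  rw [h2]
  exact Bd.sum _ fun j _ => (h1 j).smul (Bd.const _)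

end Pool.Agent.H827Z.Net
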