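import Pool.Agent.H827Z.Net.Hyp
import Pool.Agent.H827Z.Net.Bump

set_option autoImplicit false
set_option linter.unusedSectionVars false

open Set Filter Topology
open scoped ContDiff

namespace Pool.Agent.H827Z.Net

section Resp

variable {E F : Type} [NormedAddCommGroup E] [NormedSpace ℝ E] [CompleteSpace E]
  [NormedAddCommGroup F] [NormedSpace ℝ F]
  {l : E →L[ℝ] ℝ} {g : E → E} {x : Cc E} {T C : ℝ} {p : E → E}
  {X : ℝ → Cc E} {TT : ℝ → ℝ} {y : Cc E} {τ : ℝ}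

theorem Resp.dev (h : Resp l g x T C p X TT y τ) (s : ℝ) :
    HasDerivAt (fun ε => ev (X ε) s) (ev y s) 0 :=
  (evL (E := E) s).hasFDerivAt.comp_hasDerivAt (0 : ℝ) h.dX

theorem Resp.d0 (h : Resp l g x T C p X TT y τ) (Λ1 Λ2 : E →L[ℝ] F) {s s' : ℝ}
    (H : ∀ᶠ ε in 𝓝 (0 : ℝ), Λ1 (ev (X ε) s) = Λ2 (ev (X ε) s')) : Λ1 (ev y s) = Λ2 (ev y s') :=
  (Λ1.hasFDerivAt.comp_hasDerivAt (0 : ℝ) (h.dev s)).unique
    ((Λ2.hasFDerivAt.comp_hasDerivAt (0 : ℝ) (h.dev s')).congr_of_eventuallyEq H)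

theorem Resp.d1 (h : Resp l g x T C p X TT y τ) (hn : ND l g x T) (Λ1 Λ2 : E →L[ℝ] F) {s φ : ℝ}
    (H : ∀ᶠ s' in 𝓝 s, ∀ᶠ ε in 𝓝 (0 : ℝ), Λ1 (ev (X ε) s') = Λ2 (ev (X ε) (s' + φ))) :
    Λ1 (p (ev x s)) - Λ2 (p (ev x (s + φ))) =
      Λ2 (fderiv ℝ g (ev x (s + φ)) (ev y (s + φ))) - Λ1 (fderiv ℝ g (ev x s) (ev y s)) := by
  have h1 : ∀ᶠ s' in 𝓝 s, Λ1 (ev y s') = Λ2 (ev y (s' + φ)) := H.mono fun s' hs => h.d0 _ _ hs
  have h2 : ∀ᶠ s' in 𝓝 s, Λ1 (ev x s') = Λ2 (ev x (s' + φ)) := H.mono fun s' hs => by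
    simpa [h.X0] using hs.self_of_nhds
  have h3 := (Λ1.hasFDerivAt.comp_hasDerivAt s (h.ode s)).unique
    ((Λ2.hasFDerivAt.comp_hasDerivAt s ((h.ode (s + φ)).comp_add_const s φ)).congr_of_eventuallyEq h1)
  have h4 := (Λ1.hasFDerivAt.comp_hasDerivAt s (hn.sol s)).unique
    ((Λ2.hasFDerivAt.comp_hasDerivAt s ((hn.sol (s + φ)).comp_add_const s φ)).congr_of_eventuallyEq h2)
  simp only [map_add, map_smul] at h3 h4
  have h5 := smul_right_injective F hn.pos.ne' h4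
  refine smul_right_injective F hn.pos.ne' ?_
  rw [h5] at h3
  simp only [smul_sub]
  rw [sub_eq_sub_iff_add_eq_add, add_comm, add_comm _ (T • Λ2 (p _))]
  have := add_right_cancel (b := τ • Λ2 (g (ev x (s + φ))))
    (a := T • Λ1 (fderiv ℝ g (ev x s) (ev y s)) + T • Λ1 (p (ev x s)))
    (c := T • Λ2 (p (ev x (s + φ))) + T • Λ2 (fderiv ℝ g (ev x (s + φ)) (ev y (s + φ))))
    (by rw [add_right_comm, h3]; abel)
  exact this

theorem Resp.d2 (h : Resp l g x T C p X TT y τ) (hn : ND l g x T) (hp : Differentiable ℝ p)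
    (Λ : E →L[ℝ] F) {s : ℝ}
    (H : ∀ᶠ ε in 𝓝 (0 : ℝ), Λ (g (ev (X ε) s) + ε • p (ev (X ε) s)) = 0) :
    Λ (p (ev x s)) = - Λ (fderiv ℝ g (ev x s) (ev y s)) := by
  have h1 : HasDerivAt (fun ε => g (ev (X ε) s)) (fderiv ℝ g (ev x s) (ev y s)) 0 := by
    have := (hn.cd.differentiable one_ne_zero (ev (X 0) s)).hasFDerivAt.comp_hasDerivAt (0 : ℝ)
      (h.dev s)
    rw [h.X0] at this
    exact this
  have h2 : HasDerivAt (fun ε => ε • p (ev (X ε) s)) (p (ev x s)) 0 := by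
    have := (hasDerivAt_id (0 : ℝ)).smul
      ((hp (ev (X 0) s)).hasFDerivAt.comp_hasDerivAt (0 : ℝ) (h.dev s))
    refine this.congr_deriv ?_
    simp [h.X0]
  have h3 := (Λ.hasFDerivAt.comp_hasDerivAt (0 : ℝ) (h1.add h2)).unique
    ((hasDerivAt_const (0 : ℝ) (0 : F)).congr_of_eventuallyEq H)
  rw [map_add] at h3
  exact eq_neg_of_add_eq_zero_right h3

theorem ND.fd_bound (hn : ND l g x T) : ∃ K, 0 ≤ K ∧ ∀ (y : Cc E) s,
    ‖fderiv ℝ g (ev x s) (ev y s)‖ ≤ K * ‖y‖ :=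
  ⟨‖Nm (fderiv ℝ g) (hn.cd.continuous_fderiv one_ne_zero) x‖, norm_nonneg _, fun y s =>
    ((fderiv ℝ g (ev x s)).le_opNorm _).trans (mul_le_mul
      (ev_norm (Nm (fderiv ℝ g) (hn.cd.continuous_fderiv one_ne_zero) x) s) (ev_norm y s)
      (norm_nonneg _) (norm_nonneg _))⟩

theorem Resp.joint (h : Resp l g x T C p X TT y τ) (s : ℝ) :
    Tendsto (fun w : ℝ × ℝ => ev (X w.2) w.1) (𝓝 s ×ˢ 𝓝 0) (𝓝 (ev x s)) := by
  have h1 : Tendsto (fun w : ℝ × ℝ => (X w.2, (w.1 : UnitAddCircle))) (𝓝 s ×ˢ 𝓝 0)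
      (𝓝 (x, (s : UnitAddCircle))) := by
    refine Tendsto.prodMk_nhds ?_ (((AddCircle.continuous_mk' 1).tendsto s).comp tendsto_fst)
    have := h.dX.continuousAt.tendsto
    rw [h.X0] at this
    exact this.comp tendsto_snd
  exact (continuous_eval.tendsto _).comp h1

end Resp

variable {C A L : Type} {V : L → Type} [∀ l, NormedAddCommGroup (V l)] [∀ l, NormedSpace ℝ (V l)]
  [Fintype C] [Fintype A] [∀ l, FiniteDimensional ℝ (V l)] {G : Network C A} {sp : C → L}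

instance instCompleteV (l : L) : CompleteSpace (V l) := FiniteDimensional.complete ℝ (V l)

theorem key_bump (hsp : ∀ c d, G.nodeT c d → sp c = sp d) (x : Cc (∀ c, V (sp c))) {s0 : ℝ}
    {u : ∀ c, V (sp c)} (hx : HasDerivAt (ev x) u s0) {c i : C}
    (hi : i = c ∨ ∃ e : G.In c, G.tail e.1 = i) (hu : u i ≠ 0) {U : Set ℝ} (hU : U ∈ 𝓝 s0) :
    ∃ s1 ∈ U, ∀ v : V (sp c), Tendsto
      (fun n => ∫ r in (0 : ℝ)..1, ‖pert G sp n c (ev x s1) v (ev x r)‖) atTop (𝓝 0) := by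
  obtain ⟨m, hm⟩ := SeparatingDual.exists_eq_one (R := ℝ) hu
  let h : C → ℝ → ℝ := fun j r => m (tr V (sp j) (sp i) (ev x r j))
  have hc : ∀ j, Continuous (h j) := fun j =>
    m.continuous.comp ((tr V _ _).continuous.comp ((continuous_apply j).comp (ev_cont x)))
  have hAt : (⋃ j, {t : ℝ | 0 < MeasureTheory.volume {r | h j r = t}}).Countable :=
    countable_iUnion fun j => MeasureTheory.Measure.countable_meas_level_set_pos (hc j).measurable
  obtain ⟨s1, hs1, hs1A⟩ : ∃ s1 ∈ U,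
      h i s1 ∉ ⋃ j, {t : ℝ | 0 < MeasureTheory.volume {r | h j r = t}} := by
    by_contra hcon
    push Not at hcon
    obtain ⟨ρ, hρ, hball⟩ := Metric.mem_nhds_iff.1 hU
    have h1 : (h i '' Metric.ball s0 ρ).Subsingleton :=
      (hAt.mono (by rintro _ ⟨r, hr, rfl⟩; exact hcon r (hball hr))).isTotallyDisconnected _
        subset_rfl ((convex_ball s0 ρ).isPreconnected.image _ (hc i).continuousOn)
    have h2 : HasDerivAt (h i) 1 s0 := by
      have := (m.comp ((tr V (sp i) (sp i)).comp (ContinuousLinearMap.proj (R := ℝ)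
        (φ := fun c => V (sp c)) i))).hasFDerivAt.comp_hasDerivAt s0 hx
      exact this.congr_deriv (by simp [hm])
    have h3 : h i =ᶠ[𝓝 s0] fun _ => h i s0 := by
      filter_upwards [Metric.ball_mem_nhds s0 hρ] with r hr
      exact h1 ⟨r, hr, rfl⟩ ⟨s0, Metric.mem_ball_self hρ, rfl⟩
    exact one_ne_zero (h2.unique ((hasDerivAt_const s0 _).congr_of_eventuallyEq h3))
  refine ⟨s1, hs1, fun v => ?_⟩
  have hae : ∀ᵐ r ∂MeasureTheory.volume, ∀ j, h j r ≠ h i s1 := by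
    rw [MeasureTheory.ae_all_iff]
    intro j
    rw [MeasureTheory.ae_iff]
    simp only [mem_iUnion, mem_setOf_eq, not_exists, not_lt, nonpos_iff_eq_zero] at hs1A
    simpa using hs1A j
  have := intervalIntegral.tendsto_integral_filter_of_dominated_convergence (l := atTop)
    (μ := MeasureTheory.volume) (a := 0) (b := 1) (f := fun _ => (0 : ℝ))
    (F := fun n r => ‖pert G sp n c (ev x s1) v (ev x r)‖) (fun _ => ‖v‖)
    (Eventually.of_forall fun n =>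
      ((pert_bd n c _ v).1.continuous.comp (ev_cont x)).norm.aestronglyMeasurable)
    (Eventually.of_forall fun n => Eventually.of_forall fun r _ => by
      rw [norm_norm]; exact pert_norm n c _ v _)
    (continuous_const.intervalIntegrable _ _) (hae.mono fun r hr _ => ?_)
  · simpa using this
  · refine tendsto_const_nhds.congr' ?_
    have h1 : ∀ j, ∀ᶠ n in atTop, pert G sp n c (ev x s1) v (ev x r) j = 0 := by
      intro j
      refine pert_ev hsp v ?_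
      rintro ⟨β, _, hM⟩
      rcases hi with rfl | ⟨e, rfl⟩
      · exact hr j (by simp only [h]; rw [tr_congr hM.1])
      · exact hr (G.tail (β e).1) (by simp only [h]; rw [tr_congr (hM.2 e)])
    filter_upwards [eventually_all.2 h1] with n hn
    rw [show pert G sp n c (ev x s1) v (ev x r) = 0 from funext hn, norm_zero]

open Classical in
/-- the pointwise synchrony pattern -/
noncomputable def Pat (sp : C → L) (z : ∀ c, V (sp c)) : Finset (C × C) :=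
  Finset.univ.filter fun w => st sp z w.1 = st sp z w.2

open Classical in
/-- the vanishing components -/
noncomputable def Zer (sp : C → L) (u : ∀ c, V (sp c)) : Finset C :=
  Finset.univ.filter fun i => u i = 0

theorem mem_Pat {z : ∀ c, V (sp c)} {c d : C} : (c, d) ∈ Pat sp z ↔ st sp z c = st sp z d := by
  simp [Pat]

theorem mem_Zer {u : ∀ c, V (sp c)} {c : C} : c ∈ Zer sp u ↔ u c = 0 := by simp [Zer]

theorem Pat_usc (z : ∀ c, V (sp c)) : ∀ᶠ z' in 𝓝 z, Pat sp z' ⊆ Pat sp z := by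
  have : ∀ w : C × C, ∀ᶠ z' in 𝓝 z, w ∈ Pat sp z' → w ∈ Pat sp z := by
    rintro ⟨c, d⟩
    by_cases h : (c, d) ∈ Pat sp z
    · simp [h]
    · by_cases h1 : sp c = sp d
      · have h2 : tr V (sp c) (sp d) (z c) ≠ z d := fun h2 => h (mem_Pat.2 (st_iff.2 ⟨h1, h2⟩))
        have h3 : ∀ᶠ z' in 𝓝 z, tr V (sp c) (sp d) (z' c) ≠ z' d :=
          (isOpen_ne_fun ((tr V _ _).continuous.comp (continuous_apply c))
            (continuous_apply d)).mem_nhds h2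
        filter_upwards [h3] with z' hz' hm
        exact absurd (st_iff.1 (mem_Pat.1 hm)).2 hz'
      · exact Eventually.of_forall fun z' hm => absurd (st_iff.1 (mem_Pat.1 hm)).1 h1
  filter_upwards [eventually_all.2 this] with z' hz' w hw using hz' w hw

theorem Zer_usc (u : ∀ c, V (sp c)) : ∀ᶠ u' in 𝓝 u, Zer sp u' ⊆ Zer sp u := by
  have : ∀ c : C, ∀ᶠ u' in 𝓝 u, c ∈ Zer sp u' → c ∈ Zer sp u := by
    intro c
    by_cases h : u c = 0
    · simp [mem_Zer, h]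
    · have h3 : ∀ᶠ u' in 𝓝 u, u' c ≠ 0 :=
        (isOpen_ne_fun (continuous_apply c) continuous_const).mem_nhds h
      filter_upwards [h3] with u' hu' hm
      exact absurd (mem_Zer.1 hm) hu'
  filter_upwards [eventually_all.2 this] with z' hz' w hw using hz' w hw

/-- admissible small perturbations together with their periodic solutions -/
structure GS (G : Network C A) (sp : C → L) (l : (∀ c, V (sp c)) →L[ℝ] ℝ)
    (f : (∀ c, V (sp c)) → ∀ c, V (sp c)) (w0 : Cc (∀ c, V (sp c))) (T0 δ : ℝ)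
    (q : (∀ c, V (sp c)) → ∀ c, V (sp c)) (X : Cc (∀ c, V (sp c))) (T : ℝ) : Prop where
  pb : PB G sp q
  bd : Bd q
  small : ∃ M < δ, ∀ z, ‖q z‖ ≤ M ∧ ‖fderiv ℝ q z‖ ≤ M
  nd : ND l (fun z => f z + q z) X T
  cx : ‖X - w0‖ < δ
  cT : |T - T0| < δ

variable {l : (∀ c, V (sp c)) →L[ℝ] ℝ} {f : (∀ c, V (sp c)) → ∀ c, V (sp c)}
  {w0 : Cc (∀ c, V (sp c))} {T0 δ : ℝ} {q : (∀ c, V (sp c)) → ∀ c, V (sp c)}
  {X : Cc (∀ c, V (sp c))} {T K : ℝ} {p : (∀ c, V (sp c)) → ∀ c, V (sp c)}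
  {X' : ℝ → Cc (∀ c, V (sp c))} {TT : ℝ → ℝ} {y : Cc (∀ c, V (sp c))} {τ : ℝ}

theorem GS.perturb (h : GS G sp l f w0 T0 δ q X T)
    (hr : Resp l (fun z => f z + q z) X T K p X' TT y τ) (hp : PB G sp p) (hb : Bd p) :
    ∀ᶠ ε in 𝓝 (0 : ℝ), GS G sp l f w0 T0 δ (fun z => q z + ε • p z) (X' ε) (TT ε) := by
  obtain ⟨M, hM, hMq⟩ := h.small
  obtain ⟨N, hN⟩ := hb.2
  have h1 : ∀ᶠ ε in 𝓝 (0 : ℝ), M + |ε| * N < δ := by
    have : Continuous fun ε : ℝ => M + |ε| * N := by fun_prop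
    exact this.continuousAt.eventually (gt_mem_nhds (by simpa using hM))
  have h2 : ∀ᶠ ε in 𝓝 (0 : ℝ), ‖X' ε - w0‖ < δ :=
    (hr.dX.continuousAt.sub continuousAt_const).norm.eventually
      (gt_mem_nhds (by simpa [hr.X0] using h.cx))
  have h3 : ∀ᶠ ε in 𝓝 (0 : ℝ), |TT ε - T0| < δ :=
    (hr.dT.continuousAt.sub continuousAt_const).abs.eventually
      (gt_mem_nhds (by simpa [hr.T0] using h.cT))
  filter_upwards [h1, h2, h3, hr.nd] with ε h1 h2 h3 h4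
  refine ⟨h.pb.add (hp.smul ε), h.bd.add (hb.const_smul ε), ⟨_, h1, fun z => ⟨?_, ?_⟩⟩, ?_, h2, h3⟩
  · refine (norm_add_le _ _).trans (add_le_add (hMq z).1 ?_)
    rw [norm_smul, Real.norm_eq_abs]
    exact mul_le_mul_of_nonneg_left (hN z).1 (abs_nonneg _)
  · rw [fderiv_fun_add (h.bd.diff z) ((hb.const_smul ε).diff z), fderiv_fun_const_smul (hb.diff z)]
    refine (norm_add_le _ _).trans (add_le_add (hMq z).2 ?_)
    rw [norm_smul, Real.norm_eq_abs]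
    exact mul_le_mul_of_nonneg_left (hN z).2 (abs_nonneg _)
  · simpa only [add_assoc] using h4

/-- the size of the local pattern -/
noncomputable def Nsz (sp : C → L) (g : (∀ c, V (sp c)) → ∀ c, V (sp c)) (z : ∀ c, V (sp c)) : ℕ :=
  (Pat sp z).card + (Zer sp (g z)).card

/-- a state and a time with minimal local pattern -/
def IsMin (G : Network C A) (sp : C → L) (l : (∀ c, V (sp c)) →L[ℝ] ℝ)
    (f : (∀ c, V (sp c)) → ∀ c, V (sp c)) (w0 : Cc (∀ c, V (sp c))) (T0 δ : ℝ)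
    (q : (∀ c, V (sp c)) → ∀ c, V (sp c)) (X : Cc (∀ c, V (sp c))) (T s : ℝ) : Prop :=
  GS G sp l f w0 T0 δ q X T ∧ ∀ q' X' T' s', GS G sp l f w0 T0 δ q' X' T' →
    Nsz sp (fun z => f z + q z) (ev X s) ≤ Nsz sp (fun z => f z + q' z) (ev X' s')

theorem exists_isMin (h : GS G sp l f w0 T0 δ q X T) :
    ∃ q X T s, IsMin G sp l f w0 T0 δ q X T s := by
  classical
  have hex : ∃ n, ∃ q X T s, GS G sp l f w0 T0 δ q X T ∧
      Nsz sp (fun z => f z + q z) (ev X s) = n := ⟨_, q, X, T, 0, h, rfl⟩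
  obtain ⟨q1, X1, T1, s1, h1, h2⟩ := Nat.find_spec hex
  exact ⟨q1, X1, T1, s1, h1, fun q' X' T' s' h' => h2 ▸ Nat.find_min' hex ⟨q', X', T', s', h', rfl⟩⟩

theorem eq_of_Nsz {g g' : (∀ c, V (sp c)) → ∀ c, V (sp c)} {z z' : ∀ c, V (sp c)}
    (h1 : Pat sp z' ⊆ Pat sp z) (h2 : Zer sp (g' z') ⊆ Zer sp (g z))
    (h : Nsz sp g z ≤ Nsz sp g' z') : Pat sp z' = Pat sp z ∧ Zer sp (g' z') = Zer sp (g z) := by
  have h3 := Finset.card_le_card h1
  have h4 := Finset.card_le_card h2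
  unfold Nsz at h
  exact ⟨Finset.eq_of_subset_of_card_le h1 (by omega), Finset.eq_of_subset_of_card_le h2 (by omega)⟩

theorem IsMin.near {s : ℝ} (h : IsMin G sp l f w0 T0 δ q X T s) :
    ∀ᶠ s' in 𝓝 s, IsMin G sp l f w0 T0 δ q X T s' ∧ Pat sp (ev X s') = Pat sp (ev X s) ∧
      Zer sp (f (ev X s') + q (ev X s')) = Zer sp (f (ev X s) + q (ev X s)) := by
  have h1 := ((ev_cont X).tendsto s).eventually (Pat_usc (ev X s))
  have h2 := ((h.1.nd.cd.continuous.comp (ev_cont X)).tendsto s).eventually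
    (Zer_usc (f (ev X s) + q (ev X s)))
  filter_upwards [h1, h2] with s' h1 h2
  have h3 := eq_of_Nsz (g := fun z => f z + q z) (g' := fun z => f z + q z) h1 h2
    (h.2 q X T s' h.1)
  refine ⟨⟨h.1, fun q' X' T' s'' h' => ?_⟩, h3⟩
  have := h.2 q' X' T' s'' h'
  unfold Nsz at this ⊢
  rwa [h3.1, h3.2]

theorem IsMin.local {s : ℝ} (h : IsMin G sp l f w0 T0 δ q X T s)
    (hr : Resp l (fun z => f z + q z) X T K p X' TT y τ) (hp : PB G sp p) (hb : Bd p) :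
    ∀ᶠ s' in 𝓝 s, ∀ᶠ ε in 𝓝 (0 : ℝ), Pat sp (ev (X' ε) s') = Pat sp (ev X s) ∧
      Zer sp (f (ev (X' ε) s') + q (ev (X' ε) s') + ε • p (ev (X' ε) s')) =
        Zer sp (f (ev X s) + q (ev X s)) := by
  have h0 := hr.joint s
  have h1 := h0.eventually (Pat_usc (ev X s))
  have h2' : Tendsto (fun w : ℝ × ℝ => f (ev (X' w.2) w.1) + q (ev (X' w.2) w.1) +
      w.2 • p (ev (X' w.2) w.1)) (𝓝 s ×ˢ 𝓝 0) (𝓝 (f (ev X s) + q (ev X s))) := by
    have := ((h.1.nd.cd.continuous.tendsto _).comp h0).add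
      ((tendsto_snd (f := 𝓝 s) (g := 𝓝 (0 : ℝ))).smul ((hb.1.continuous.tendsto _).comp h0))
    simpa using this
  have h2 := h2'.eventually (Zer_usc _)
  have h3 := (tendsto_snd (f := 𝓝 s) (g := 𝓝 (0 : ℝ))).eventually (h.1.perturb hr hp hb)
  refine Eventually.curry (p := fun w : ℝ × ℝ => Pat sp (ev (X' w.2) w.1) = Pat sp (ev X s) ∧
      Zer sp (f (ev (X' w.2) w.1) + q (ev (X' w.2) w.1) + w.2 • p (ev (X' w.2) w.1)) =
        Zer sp (f (ev X s) + q (ev X s))) ?_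
  filter_upwards [h1, h2, h3] with w h1 h2 h3
  refine eq_of_Nsz (g := fun z => f z + q z) (g' := fun z => f z + q z + w.2 • p z) h1 h2 ?_
  simpa only [add_assoc] using h.2 _ _ _ w.1 h3

end Pool.Agent.H827Z.Net
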