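import Mathlib

set_option autoImplicit false

namespace Pool.Agent.H827Z.Net

/-- A network on the node set `C` with arrow set `A`: heads, tails, node types and arrow types;
arrows of equal type have heads of equal type and tails of equal type. -/
structure Network (C A : Type) where
  head : A → C
  tail : A → C
  nodeT : Setoid C
  arrT : Setoid A
  head_type : ∀ e e', arrT e e' → nodeT (head e) (head e')
  tail_type : ∀ e e', arrT e e' → nodeT (tail e) (tail e')

variable {C A L : Type}

/-- The input set `I(c)`: the arrows with head `c`. -/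
abbrev Network.In (G : Network C A) (c : C) : Type := {e : A // G.head e = c}

/-- `β` is an input isomorphism: `c` and `d` have equal node type and `β` preserves arrow types. -/
def Network.IsIso (G : Network C A) {c d : C} (β : G.In c ≃ G.In d) : Prop :=
  G.nodeT c d ∧ ∀ e : G.In c, G.arrT e.1 (β e).1

/-- A relation on nodes is balanced. -/
def Network.Balanced (G : Network C A) (R : C → C → Prop) : Prop :=
  ∀ c d, R c d → ∃ β : G.In c ≃ G.In d, G.IsIso β ∧ ∀ e : G.In c, R (G.tail e.1) (G.tail (β e).1)

/-- For every arrow type, `I(c)` and `I(d)` contain equally many arrows of that type. -/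
def Network.InputIsomorphic (G : Network C A) (c d : C) : Prop :=
  ∀ a : A, Nat.card {e : G.In c // G.arrT e.1 a} = Nat.card {e : G.In d // G.arrT e.1 a}

/-- The state of node `c`, in the disjoint union of the state spaces `V l`; node `c` has state
space `V (sp c)`. -/
def st {V : L → Type} (sp : C → L) (x : ∀ c, V (sp c)) (c : C) : Σ l, V l := ⟨sp c, x c⟩

/-- The two structural conditions on an admissible map: component functions `fh c` exist with
`f_c x = fh c (x_c; x_(t e))` and `f_d x = fh c (x_d; x_(t (β e)))` for input isomorphisms `β`. -/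
def Network.Admissible (G : Network C A) {V : L → Type} (sp : C → L)
    (f : (∀ c, V (sp c)) → ∀ c, V (sp c)) : Prop :=
  ∃ fh : ∀ c : C, (Σ l, V l) → (G.In c → Σ l, V l) → Σ l, V l,
    (∀ c x, st sp (f x) c = fh c (st sp x c) fun e => st sp x (G.tail e.1)) ∧
    ∀ (c d : C) (β : G.In c ≃ G.In d), G.IsIso β → ∀ x,
      st sp (f x) d = fh c (st sp x d) fun e => st sp x (G.tail (β e).1)

variable {E : Type} [NormedAddCommGroup E] [NormedSpace ℝ E]

/-- `x` is a non-constant solution of `x' = f x` with period `T > 0`. -/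
def IsPeriodicOrbit (f : E → E) (x : ℝ → E) (T : ℝ) : Prop :=
  0 < T ∧ (∀ t, HasDerivAt x (f (x t)) t) ∧ (∀ t, x (t + T) = x t) ∧ ∃ t, x t ≠ x 0

/-- Hyperbolicity: for the fundamental solution `Y` of the variational equation, the complex
characteristic polynomial of the monodromy `Y T` has `1` as a simple root and no other root on the
unit circle. -/
def IsHyperbolic [FiniteDimensional ℝ E] (f : E → E) (x : ℝ → E) (T : ℝ) : Prop :=
  ∃ Y : ℝ → E →L[ℝ] E, Y 0 = ContinuousLinearMap.id ℝ E ∧
    (∀ t, HasDerivAt Y ((fderiv ℝ f (x t)).comp (Y t)) t) ∧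
    (((Y T : E →ₗ[ℝ] E).charpoly).map (algebraMap ℝ ℂ)).rootMultiplicity 1 = 1 ∧
    ∀ z : ℂ, ‖z‖ = 1 → (((Y T : E →ₗ[ℝ] E).charpoly).map (algebraMap ℝ ℂ)).IsRoot z → z = 1

/-- The property `R` of periodic orbits is rigid at `(f, x, T)` within the class `Adm` of vector
fields, closeness being measured on the set `K`: it holds for every periodic orbit close to `x`,
with period close to `T`, of every `g` in `Adm` that is `C¹`-close to `f` on `K`. -/
def RigidOn (K : Set E) (Adm : (E → E) → Prop) (f : E → E) (x : ℝ → E) (T : ℝ)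
    (R : (ℝ → E) → ℝ → Prop) : Prop :=
  ∃ δ > 0, ∀ g, Adm g → (∀ z ∈ K, ‖g z - f z‖ < δ ∧ ‖fderiv ℝ g z - fderiv ℝ f z‖ < δ) →
    ∀ (y : ℝ → E) (S : ℝ), IsPeriodicOrbit g y S → |S - T| < δ →
      (∀ s, ‖y (s * S) - x (s * T)‖ < δ) → R y S

end Pool.Agent.H827Z.Net
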