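import Pool.Agent.H827Z.Net.Main

set_option autoImplicit false
set_option linter.unusedSectionVars false

open Set Filter Topology
open scoped ContDiff

namespace Pool.Agent.H827Z.Net

variable {C A L : Type} {V : L → Type} [∀ l, NormedAddCommGroup (V l)] [∀ l, NormedSpace ℝ (V l)]
  [Fintype C] [Fintype A] [∀ l, FiniteDimensional ℝ (V l)] {G : Network C A} {sp : C → L}

theorem RigidOn.univ {E : Type} [NormedAddCommGroup E] [NormedSpace ℝ E] {K : Set E}
    {Adm : (E → E) → Prop} {f : E → E} {x : ℝ → E} {T : ℝ} {R : (ℝ → E) → ℝ → Prop}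
    (h : RigidOn K Adm f x T R) : RigidOn univ Adm f x T R := by
  obtain ⟨δ, hδ, H⟩ := h
  exact ⟨δ, hδ, fun g hg hc => H g hg fun z _ => hc z (mem_univ z)⟩

theorem setup {f : (∀ c, V (sp c)) → ∀ c, V (sp c)} (hf : ContDiff ℝ 1 f)
    {x : ℝ → ∀ c, V (sp c)} {T : ℝ} (hx : IsPeriodicOrbit f x T) (hh : IsHyperbolic f x T)
    {Adm : ((∀ c, V (sp c)) → ∀ c, V (sp c)) → Prop}
    (hA : ∀ q, PB G sp q → Bd q → Adm fun z => f z + q z)
    {R : (ℝ → ∀ c, V (sp c)) → ℝ → Prop} (hR : RigidOn univ Adm f x T R) :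
    ∃ l w0 δ, (∃ q X T' s, IsMin G sp l f w0 T δ q X T' s) ∧
      ∀ q X T', GS G sp l f w0 T δ q X T' → R (fun t => ev X (t / T')) T' ∧
        ∀ c d, (∀ s, st sp (ev X s) c = st sp (ev X s) d) → ∀ t, st sp (x t) c = st sp (x t) d := by
  obtain ⟨l, w0, hw0, hnd⟩ := ND_of_hyp hf hx hh
  obtain ⟨δ, hδ, H⟩ := hR
  obtain ⟨hT, -, -, t1, ht1⟩ := hx
  have hw : ∀ t, ev w0 (t / T) = x t := fun t => by rw [hw0, div_mul_cancel₀ _ hT.ne']
  have h1 : ∀ᶠ X in 𝓝 w0, ev X (t1 / T) ≠ ev X 0 :=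
    (isOpen_ne_fun (evL (E := ∀ c, V (sp c)) (t1 / T)).continuous
      (evL (E := ∀ c, V (sp c)) 0).continuous).mem_nhds (by
        change ev w0 (t1 / T) ≠ ev w0 0
        rw [hw, hw0, zero_mul]; exact ht1)
  have h2 : ∀ w : C × C, ∀ᶠ X in 𝓝 w0, (∀ s, st sp (ev X s) w.1 = st sp (ev X s) w.2) →
      ∀ t, st sp (x t) w.1 = st sp (x t) w.2 := by
    rintro ⟨c, d⟩
    by_cases h : ∀ t, st sp (x t) c = st sp (x t) d
    · exact Eventually.of_forall fun _ _ => h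
    · obtain ⟨t, ht⟩ := not_forall.1 h
      filter_upwards [((evL (E := ∀ c, V (sp c)) (t / T)).continuous.tendsto w0).eventually
        (Pat_usc (ev w0 (t / T)))] with X hX hs
      exact absurd (by simpa only [hw] using mem_Pat.1 (hX (mem_Pat.2 (hs (t / T))))) ht
  obtain ⟨ρ, hρ, hball⟩ := Metric.eventually_nhds_iff.1 (h1.and (eventually_all.2 h2))
  refine ⟨l, w0, min δ ρ, exists_isMin (q := fun _ => 0) (X := w0) (T := T)
    ⟨PB.zero, Bd.const _, ⟨0, lt_min hδ hρ, fun z => by simp⟩, by simpa using hnd,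
      by simpa using ⟨hδ, hρ⟩, by simpa using ⟨hδ, hρ⟩⟩, fun q X T' h => ?_⟩
  obtain ⟨h3, h4⟩ := hball (y := X) (by rw [dist_eq_norm]; exact h.cx.trans_le (min_le_right _ _))
  refine ⟨H _ (hA q h.pb h.bd) (fun z _ => ?_) _ _ ⟨h.nd.pos, fun t => ?_, fun t => ?_,
    t1 / T * T', ?_⟩ (h.cT.trans_le (min_le_left _ _)) fun s => ?_, fun c d => h4 (c, d)⟩
  · obtain ⟨M, hM, hq⟩ := h.small
    rw [fderiv_fun_add (hf.differentiable one_ne_zero z) (h.bd.diff z), add_sub_cancel_left,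
      add_sub_cancel_left]
    exact ⟨(hq z).1.trans_lt (hM.trans_le (min_le_left _ _)),
      (hq z).2.trans_lt (hM.trans_le (min_le_left _ _))⟩
  · have := (h.nd.sol (t / T')).scomp t ((hasDerivAt_id t).div_const T')
    refine this.congr_deriv ?_
    rw [smul_smul, one_div, inv_mul_cancel₀ h.nd.pos.ne', one_smul]
  · beta_reduce
    rw [add_div, div_self h.nd.pos.ne']
    exact ev_per X _
  · beta_reduce
    rw [mul_div_cancel_right₀ _ h.nd.pos.ne', zero_div]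
    exact h3
  · rw [mul_div_cancel_right₀ _ h.nd.pos.ne', ← hw0, ← ev_sub]
    exact (ev_norm _ _).trans_lt (h.cx.trans_le (min_le_left _ _))

theorem rigid_synchrony (hsp : ∀ c d, G.nodeT c d → sp c = sp d)
    (hnt : ∀ c, Nontrivial (V (sp c))) {f : (∀ c, V (sp c)) → ∀ c, V (sp c)}
    (hf : ContDiff ℝ 1 f) (hadm : G.Admissible sp f) {x : ℝ → ∀ c, V (sp c)} {T : ℝ}
    (hx : IsPeriodicOrbit f x T) (hh : IsHyperbolic f x T)
    (hR : RigidOn univ (fun g => ContDiff ℝ 1 g ∧ G.Admissible sp g) f x T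
      fun y _ => ∀ c d, (∀ t, st sp (x t) c = st sp (x t) d) → ∀ t, st sp (y t) c = st sp (y t) d) :
    G.Balanced fun c d => ∀ t, st sp (x t) c = st sp (x t) d := by
  have hpb := admissible_iff.1 hadm
  obtain ⟨l, w0, δ, ⟨q, X, T', s0, h⟩, H⟩ := setup (G := G) hf hx hh
    (fun q h1 h2 => ⟨hf.add (h2.1.of_le (by simp)), admissible_iff.2 (hpb.add h1)⟩) hR
  obtain ⟨h1, h2⟩ := H q X T' h.1
  intro c d hcd
  have h3 := h1 c d hcd (s0 * T')
  beta_reduce at h3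
  rw [mul_div_cancel_right₀ _ h.1.nd.pos.ne'] at h3
  obtain ⟨β, h4, h5⟩ := h.balanced hsp hnt hpb h3
  exact ⟨β, h4, fun e => h2 _ _ (h.global hsp hnt hpb (h5.2 e))⟩

theorem rigid_input (hsp : ∀ c d, G.nodeT c d → sp c = sp d)
    (hnt : ∀ c, Nontrivial (V (sp c))) {f : (∀ c, V (sp c)) → ∀ c, V (sp c)}
    (hf : ContDiff ℝ ∞ f) (hadm : G.Admissible sp f) {x : ℝ → ∀ c, V (sp c)} {T : ℝ}
    (hx : IsPeriodicOrbit f x T) (hh : IsHyperbolic f x T) {c d : C} {θ : ℝ}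
    (hR : RigidOn univ (fun g => ContDiff ℝ ∞ g ∧ G.Admissible sp g) f x T
      fun y S => ∀ t, st sp (y t) c = st sp (y (t + θ * S / T)) d) :
    ∃ β : G.In c ≃ G.In d, G.IsIso β := by
  have hpb := admissible_iff.1 hadm
  obtain ⟨l, w0, δ, ⟨q, X, T', s0, h⟩, H⟩ := setup (G := G) (hf.of_le (by simp)) hx hh
    (fun q h1 h2 => ⟨hf.add h2.1, admissible_iff.2 (hpb.add h1)⟩) hR
  have hrel : ∀ q X T', GS G sp l f w0 T δ q X T' →
      ∀ s, st sp (ev X s) c = st sp (ev X (s + θ / T)) d := by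
    intro q X T' hg s
    have h1 := (H q X T' hg).1 (s * T')
    have hp := hg.nd.pos.ne'
    beta_reduce at h1
    rwa [mul_div_cancel_right₀ _ hp,
      show (s * T' + θ * T' / T) / T' = s + θ / T by field_simp] at h1
  by_cases hc : c ∈ Zer sp (f (ev X s0) + q (ev X s0))
  · have h1 := hrel q X T' h.1 (s0 - θ / T)
    rw [sub_add_cancel] at h1
    have h2 : st sp (ev X s0) c = st sp (ev X (s0 - θ / T)) c := by
      simp only [st, h.steady hsp hnt hpb hc (s0 - θ / T)]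
    obtain ⟨β, h3, -⟩ := h.balanced hsp hnt hpb (h2.trans h1)
    exact ⟨β, h3⟩
  · by_contra hcon
    refine h.osc hsp hnt (st_iff.1 (hrel q X T' h.1 0)).1 hc (φ := θ / T)
      (Eventually.of_forall fun s1 K p X' TT y τ hp hb hr => Eventually.of_forall fun s' =>
        (h.1.perturb hr hp hb).mono fun ε hε => hrel _ _ _ hε s')
      (Eventually.of_forall fun s1 ⟨β, h1, _⟩ => hcon ⟨β, h1⟩)

theorem inputIsomorphic_of_iso {c d : C} {β : G.In c ≃ G.In d} (h : G.IsIso β) :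
    G.InputIsomorphic c d := fun a =>
  Nat.card_congr (β.subtypeEquiv fun e =>
    ⟨fun h' => G.arrT.trans (G.arrT.symm (h.2 e)) h', fun h' => G.arrT.trans (h.2 e) h'⟩)

end Pool.Agent.H827Z.Net
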