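import Pool.Agent.H827Z.Net.Nem
import Pool.Agent.H827Z.Net.Defs

set_option autoImplicit false
set_option linter.unusedSectionVars false

open Set Filter Topology

namespace Pool.Agent.H827Z.Net

theorem zero_of_bound {F : Type*} [NormedAddCommGroup F] [NormedSpace ℝ F] {u u' : ℝ → F} {K : ℝ}
    (hu : ∀ s, HasDerivAt u (u' s) s) (hb : ∀ s, ‖u' s‖ ≤ K * ‖u s‖) {s0 : ℝ} (h0 : u s0 = 0)
    (s : ℝ) : u s = 0 := by
  rcases le_total s0 s with h | h
  · exact eq_zero_of_abs_deriv_le_mul_abs_self_of_eq_zero_right (a := s0) (b := s) (K := K)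
      (fun r _ => (hu r).continuousAt.continuousWithinAt) (fun r _ => (hu r).hasDerivWithinAt) h0
      (fun r _ => hb r) s ⟨h, le_rfl⟩
  · have hv : ∀ r, HasDerivAt (fun r => u (-r)) (-u' (-r)) r := fun r => by
      exact ((hu (-r)).scomp r (hasDerivAt_neg r)).congr_deriv (by simp)
    have := eq_zero_of_abs_deriv_le_mul_abs_self_of_eq_zero_right (f := fun r => u (-r))
      (f' := fun r => -u' (-r)) (a := -s0) (b := -s) (K := K)
      (fun r _ => (hv r).continuousAt.continuousWithinAt) (fun r _ => (hv r).hasDerivWithinAt)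
      (by simpa using h0) (fun r _ => by simpa using hb (-r)) (-s) ⟨by linarith, le_rfl⟩
    simpa using this

variable {E : Type} [NormedAddCommGroup E] [NormedSpace ℝ E] [FiniteDimensional ℝ E]

theorem invariant {g : E → E} (hg : ContDiff ℝ 1 g) {w : Cc E} {T : ℝ}
    (hw : ∀ s, HasDerivAt (ev w) (T • g (ev w s)) s) (R : E →L[ℝ] E) (a : E)
    (hR : ∀ z, R (g (z - R (z - a))) = 0) {s0 : ℝ} (h0 : R (ev w s0 - a) = 0) (s : ℝ) :
    R (ev w s - a) = 0 := by
  haveI : ProperSpace E := FiniteDimensional.proper_real E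
  set ρ := ‖w‖ + ‖R‖ * (‖w‖ + ‖a‖) with hρ
  obtain ⟨K, hK⟩ := hg.contDiffOn.exists_lipschitzOnWith (s := Metric.closedBall 0 ρ) one_ne_zero
    (convex_closedBall _ _) (isCompact_closedBall _ _)
  refine zero_of_bound (u := fun s => R (ev w s - a)) (u' := fun s => R (T • g (ev w s)))
    (K := |T| * ‖R‖ * K) (fun s => R.hasFDerivAt.comp_hasDerivAt s ((hw s).sub_const a))
    (fun s => ?_) h0 s
  have h1 : ev w s ∈ Metric.closedBall (0 : E) ρ := by
    rw [mem_closedBall_zero_iff]
    have := ev_norm w s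
    have : 0 ≤ ‖R‖ * (‖w‖ + ‖a‖) := by positivity
    linarith
  have h2 : ev w s - R (ev w s - a) ∈ Metric.closedBall (0 : E) ρ := by
    rw [mem_closedBall_zero_iff]
    have h3 := ev_norm w s
    have h4 : ‖R (ev w s - a)‖ ≤ ‖R‖ * (‖w‖ + ‖a‖) := (R.le_opNorm _).trans
      (mul_le_mul_of_nonneg_left ((norm_sub_le _ _).trans (by linarith)) (norm_nonneg _))
    linarith [norm_sub_le (ev w s) (R (ev w s - a))]
  have h3 := hK.dist_le_mul _ h1 _ h2
  rw [dist_eq_norm, dist_eq_norm, sub_sub_cancel] at h3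
  have h4 : R (T • g (ev w s)) = T • R (g (ev w s) - g (ev w s - R (ev w s - a))) := by
    rw [map_sub, hR, sub_zero, map_smul]
  rw [h4, norm_smul, Real.norm_eq_abs, mul_assoc, mul_assoc]
  exact mul_le_mul_of_nonneg_left ((R.le_opNorm _).trans
    (mul_le_mul_of_nonneg_left h3 (norm_nonneg _))) (abs_nonneg _)

theorem ND_of_hyp {f : E → E} (hf : ContDiff ℝ 1 f) {x : ℝ → E} {T : ℝ}
    (hx : IsPeriodicOrbit f x T) (hh : IsHyperbolic f x T) :
    ∃ (l : E →L[ℝ] ℝ) (w : Cc E), (∀ s, ev w s = x (s * T)) ∧ ND l f w T := by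
  obtain ⟨hT, hsol, hper, t1, ht1⟩ := hx
  obtain ⟨Y, hY0, hY, hmult, -⟩ := hh
  have hxc : Continuous x := continuous_iff_continuousAt.2 fun t => (hsol t).continuousAt
  let w : Cc E := mk (fun s => x (s * T)) (by fun_prop) fun s => by
    simp only [add_mul, one_mul, hper]
  have hw : ∀ s, ev w s = x (s * T) := fun s => rfl
  have hwsol : ∀ s, HasDerivAt (ev w) (T • f (ev w s)) s := fun s =>
    (hsol (s * T)).scomp s (hasDerivAt_mul_const T)
  set A := Nm (fderiv ℝ f) (hf.continuous_fderiv one_ne_zero) w with hA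
  set v := Nm f hf.continuous w with hv
  set Z : ℝ → E →L[ℝ] E := fun s => Y (s * T) with hZ
  have hZd : ∀ s, HasDerivAt Z (T • (ev A s).comp (Z s)) s := fun s => by
    have := (hY (s * T)).scomp s (hasDerivAt_mul_const T)
    exact this
  have hZ0 : Z 0 = ContinuousLinearMap.id ℝ E := by simp [hZ, hY0]
  have hZc : Continuous Z := continuous_iff_continuousAt.2 fun t => (hZd t).continuousAt
  -- uniqueness for the homogeneous equation
  have huniq : ∀ (u : ℝ → E) (s0 : ℝ), (∀ s, HasDerivAt u (T • ev A s (u s)) s) → u s0 = 0 →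
      ∀ s, u s = 0 := by
    intro u s0 hu h0
    refine zero_of_bound (K := T * ‖A‖) hu (fun s => ?_) h0
    rw [norm_smul, Real.norm_eq_abs, abs_of_pos hT, mul_assoc]
    exact mul_le_mul_of_nonneg_left (((ev A s).le_opNorm _).trans
      (mul_le_mul_of_nonneg_right (ev_norm A s) (norm_nonneg _))) hT.le
  have hZv : ∀ (a : E) s, HasDerivAt (fun s => Z s a) (T • ev A s (Z s a)) s := fun a s => by
    simpa using (hZd s).clm_apply (hasDerivAt_const s a)
  set v0 := f (x 0) with hv0
  have hvd : ∀ s, HasDerivAt (ev v) (T • ev A s (ev v s)) s := fun s => by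
    have := (hf.differentiable one_ne_zero (ev w s)).hasFDerivAt.comp_hasDerivAt s (hwsol s)
    rw [map_smul] at this
    exact this
  have hvZ : ∀ s, ev v s = Z s v0 := fun s => by
    have := huniq (fun s => ev v s - Z s v0) 0
      (fun s => ((hvd s).sub (hZv v0 s)).congr_deriv (by simp [smul_sub]))
      (by simp [hZ0, hv, hw, hv0]) s
    exact sub_eq_zero.1 this
  have hv0ne : v0 ≠ 0 := by
    intro h0
    have := invariant hf hwsol (ContinuousLinearMap.id ℝ E) (x 0) (fun z => by simpa using h0)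
      (s0 := 0) (by simp [hw]) (t1 / T)
    rw [hw, div_mul_cancel₀ _ hT.ne'] at this
    exact ht1 (sub_eq_zero.1 this)
  have hM : Z 1 v0 = v0 := by
    rw [← hvZ, show ev v 1 = ev v 0 from by simpa using ev_per v 0, hvZ, hZ0]; rfl
  obtain ⟨l, hl⟩ := SeparatingDual.exists_eq_one (R := ℝ) hv0ne
  -- the finite-dimensional problem
  have hfin : ∀ (a : E) (τ : ℝ), Z 1 a - a + τ • v0 = 0 → l a = 0 → a = 0 ∧ τ = 0 := by
    intro a τ h1 h2
    have hr : Module.finrank ℝ (Module.End.maxGenEigenspace (Z 1 : E →ₗ[ℝ] E) 1) = 1 := by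
      rw [LinearMap.finrank_maxGenEigenspace_eq,
        Polynomial.eq_rootMultiplicity_map (f := algebraMap ℝ ℂ) (algebraMap ℝ ℂ).injective]
      simpa [hZ] using hmult
    have hm1 : v0 ∈ Module.End.maxGenEigenspace (Z 1 : E →ₗ[ℝ] E) 1 :=
      (Module.End.mem_maxGenEigenspace _ _ _).2 ⟨1, by simp [hM]⟩
    have hm2 : a ∈ Module.End.maxGenEigenspace (Z 1 : E →ₗ[ℝ] E) 1 := by
      refine (Module.End.mem_maxGenEigenspace _ _ _).2 ⟨2, ?_⟩
      have h3 : Z 1 a - a = -(τ • v0) := eq_neg_of_add_eq_zero_left h1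
      have h4 : (((Z 1 : E →ₗ[ℝ] E) - (1 : ℝ) • (1 : Module.End ℝ E))) a = -(τ • v0) := by
        simpa using h3
      rw [pow_two, Module.End.mul_apply, h4]
      simp [hM]
    obtain ⟨c, hc⟩ := (finrank_eq_one_iff_of_nonzero' (⟨v0, hm1⟩ :
      Module.End.maxGenEigenspace (Z 1 : E →ₗ[ℝ] E) 1)
      (fun h => hv0ne (congrArg Subtype.val h))).1 hr ⟨a, hm2⟩
    have hc' : c • v0 = a := congrArg Subtype.val hc
    have hc0 : c = 0 := by rw [← hc', map_smul, hl] at h2; simpa using h2
    have ha : a = 0 := by rw [← hc', hc0, zero_smul]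
    refine ⟨ha, ?_⟩
    rw [ha, map_zero, sub_zero, zero_add] at h1
    exact (smul_eq_zero.1 h1).resolve_right hv0ne
  let Θ : E × ℝ →ₗ[ℝ] E × ℝ :=
    { toFun := fun u => (Z 1 u.1 - u.1 + u.2 • v0, l u.1)
      map_add' := fun a b => by
        simp only [Prod.fst_add, Prod.snd_add, map_add, add_smul, Prod.mk_add_mk, Prod.mk.injEq,
          and_true]
        abel
      map_smul' := fun c a => by
        simp [smul_add, smul_sub, mul_smul] }
  have hΘ : Function.Surjective Θ := by
    refine LinearMap.injective_iff_surjective.1 ((injective_iff_map_eq_zero Θ).2 fun u hu => ?_)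
    obtain ⟨h1, h2⟩ := hfin u.1 u.2 (congrArg Prod.fst hu) (congrArg Prod.snd hu)
    exact Prod.ext h1 h2
  -- the fundamental solution is invertible
  have hZu : ∀ s, IsUnit (Z s) := by
    intro s
    rw [ContinuousLinearMap.isUnit_iff_bijective]
    have hinj : Function.Injective (Z s) := (injective_iff_map_eq_zero (Z s)).2 fun a ha => by
      simpa [hZ0] using huniq (fun s => Z s a) s (hZv a) ha 0
    exact ⟨hinj, LinearMap.injective_iff_surjective (f := (Z s : E →ₗ[ℝ] E)).1 hinj⟩
  have hZi : Continuous fun s => Ring.inverse (Z s) := by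
    refine continuous_iff_continuousAt.2 fun s => ?_
    obtain ⟨u, hu⟩ := hZu s
    have := NormedRing.inverse_continuousAt u
    rw [hu] at this
    exact ContinuousAt.comp (f := Z) this hZc.continuousAt
  have hZZ : ∀ s a, Z s (Ring.inverse (Z s) a) = a := fun s a => by
    rw [← ContinuousLinearMap.mul_apply, Ring.mul_inverse_cancel _ (hZu s)]; rfl
  -- solving the inhomogeneous periodic problem
  have hsurj : ∀ (h : Cc E) (r : ℝ), ∃ (z : Cc E) (τ : ℝ),
      (∀ s, HasDerivAt (ev z) (T • ev A s (ev z s) + τ • ev v s + ev h s) s) ∧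
        l (ev z 0) = r := by
    intro h r
    have hc : Continuous fun s => Ring.inverse (Z s) (ev h s) := hZi.clm_apply (ev_cont h)
    set I : ℝ → E := fun s => ∫ q in (0 : ℝ)..s, Ring.inverse (Z q) (ev h q) with hI
    have hId : ∀ s, HasDerivAt I (Ring.inverse (Z s) (ev h s)) s := fun s =>
      (hc.integral_hasStrictDerivAt 0 s).hasDerivAt
    obtain ⟨⟨a, τ⟩, ha⟩ := hΘ (-Z 1 (I 1), r)
    have ha1 : Z 1 a - a + τ • v0 = -Z 1 (I 1) := congrArg Prod.fst ha
    have ha2 : l a = r := congrArg Prod.snd ha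
    set z : ℝ → E := fun s => Z s (a + s • τ • v0 + I s) with hz
    have hzd : ∀ s, HasDerivAt z (T • ev A s (z s) + τ • ev v s + ev h s) s := fun s => by
      have h1 := (hZd s).clm_apply ((((hasDerivAt_id s).smul_const (τ • v0)).const_add a).add (hId s))
      refine h1.congr_deriv ?_
      simp only [hz, hvZ, one_smul, map_add, map_smul, hZZ, ContinuousLinearMap.smul_apply,
        ContinuousLinearMap.comp_apply, id, Pi.add_apply]
      module
    have hz0 : z 0 = a := by simp [hz, hZ0, hI]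
    have hz1 : z 1 = a := by
      simp only [hz, one_smul, map_add, map_smul, hM]
      rw [eq_neg_iff_add_eq_zero] at ha1
      rw [← sub_eq_zero, ← ha1]; abel
    have hzp : Function.Periodic z 1 := fun s => by
      have := huniq (fun s => z (s + 1) - z s) 0 (fun s => by
        have h1 := ((hzd (s + 1)).comp_add_const s 1).sub (hzd s)
        refine h1.congr_deriv ?_
        rw [ev_per A s, ev_per v s, ev_per h s, map_sub, smul_sub]
        abel) (by simp [hz0, hz1]) s
      exact sub_eq_zero.1 this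
    exact ⟨mk z (continuous_iff_continuousAt.2 fun s => (hzd s).continuousAt) hzp, τ, hzd,
      by rw [ev_mk, hz0, ha2]⟩
  refine ⟨l, w, hw, hf, hT, hwsol, ?_⟩
  rw [← hA, ← hv]
  refine ⟨ContinuousLinearEquiv.ofBijective (Lin A v T l) ?_ ?_, rfl⟩
  · rw [LinearMap.ker_eq_bot']
    rintro ⟨y, τ⟩ hy
    have h1 : y - c0 y - JL (T • BL A y + τ • v) = 0 := congrArg Prod.fst hy
    have h2 : l (ev y 0) = 0 := congrArg Prod.snd hy
    rw [sub_eq_zero, eq_JL_iff] at h1
    have h3 := huniq (fun s => ev y s - Z s (ev y 0 + s • τ • v0)) 0 (fun s => by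
      have h4 := (h1 s).sub ((hZd s).clm_apply
        (((hasDerivAt_id s).smul_const (τ • v0)).const_add (ev y 0)))
      refine h4.congr_deriv ?_
      simp only [ev_add, ev_smul, ev_BL, hvZ, one_smul, map_add, map_smul, map_sub,
        ContinuousLinearMap.smul_apply, ContinuousLinearMap.comp_apply, id, smul_sub]
      module) (by simp [hZ0])
    have h4 := h3 1
    rw [show ev y 1 = ev y 0 from by simpa using ev_per y 0, one_smul, map_add, map_smul, hM] at h4
    obtain ⟨h5, h6⟩ := hfin (ev y 0) τ (by rw [← neg_eq_zero, ← h4]; abel) h2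
    refine Prod.ext (ev_ext fun s => ?_) h6
    have := h3 s
    simpa [h5, h6] using this
  · rw [LinearMap.range_eq_top]
    rintro ⟨u, r⟩
    obtain ⟨z, τ, h1, h2⟩ := hsurj (T • BL A u + ContinuousMap.const _ (ev u 0)) (r - l (ev u 0))
    refine ⟨(u + z, τ), Prod.ext ?_ ?_⟩
    · have h3 : z - c0 z = JL (T • BL A z + τ • v + (T • BL A u + ContinuousMap.const _ (ev u 0))) :=
        (eq_JL_iff _ _).2 h1
      have h4 : c0 u = JL (ContinuousMap.const _ (ev u 0)) := by rw [JL_const]; rfl
      change u + z - c0 (u + z) - JL (T • BL A (u + z) + τ • v) = u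
      simp only [map_add, smul_add] at h3 ⊢
      rw [← h4, ← sub_eq_zero] at h3
      rw [← sub_eq_zero, ← h3]; abel
    · change l (ev (u + z) 0) = r
      rw [ev_add, map_add, h2]; ring

end Pool.Agent.H827Z.Net
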