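import Pool.Agent.H827Z.Net.Core

set_option autoImplicit false
set_option linter.unusedSectionVars false

open Set Filter Topology
open scoped ContDiff

namespace Pool.Agent.H827Z.Net

variable {C A L : Type} {V : L → Type} [∀ l, NormedAddCommGroup (V l)] [∀ l, NormedSpace ℝ (V l)]
  [Fintype C] [Fintype A] [∀ l, FiniteDimensional ℝ (V l)] {G : Network C A} {sp : C → L}
  {l : (∀ c, V (sp c)) →L[ℝ] ℝ} {f : (∀ c, V (sp c)) → ∀ c, V (sp c)}
  {w0 : Cc (∀ c, V (sp c))} {T0 δ : ℝ} {q : (∀ c, V (sp c)) → ∀ c, V (sp c)}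
  {X : Cc (∀ c, V (sp c))} {T s0 : ℝ}

/-- coordinate projection -/
abbrev pj (sp : C → L) (c : C) : (∀ c, V (sp c)) →L[ℝ] V (sp c) := ContinuousLinearMap.proj c

theorem contra_small {I : ℕ → ℝ} (hI : Tendsto I atTop (𝓝 0)) {a K : ℝ} (ha : 0 < a)
    (h : ∀ᶠ n in atTop, a ≤ K * I n) : False := by
  have h1 := hI.const_mul K
  rw [mul_zero] at h1
  exact absurd (ge_of_tendsto h1 h) (not_le.2 ha)

theorem IsMin.closed (hsp : ∀ c d, G.nodeT c d → sp c = sp d) (hnt : ∀ c, Nontrivial (V (sp c)))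
    (h : IsMin G sp l f w0 T0 δ q X T s0) {c : C} (hc : c ∈ Zer sp (f (ev X s0) + q (ev X s0)))
    (e : G.In c) : G.tail e.1 ∈ Zer sp (f (ev X s0) + q (ev X s0)) := by
  by_contra hcon
  rw [mem_Zer] at hcon
  obtain ⟨s1, ⟨hmin, -, hZ⟩, hlim⟩ := key_bump hsp X (h.1.nd.sol s0) (c := c) (Or.inr ⟨e, rfl⟩)
    (smul_ne_zero h.1.nd.pos.ne' hcon) h.near
  obtain ⟨v, hv⟩ := exists_ne (0 : V (sp c))
  obtain ⟨K, hK0, hK⟩ := response h.1.nd
  obtain ⟨B, hB0, hB⟩ := h.1.nd.fd_bound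
  refine contra_small (hlim v) (norm_pos_iff.2 hv) (K := B * K) (Eventually.of_forall fun n => ?_)
  obtain ⟨X', TT, y, τ, hr⟩ := hK _ ((pert_bd (G := G) n c (ev X s1) v).1.of_le (by simp))
  have h1 := hr.d2 h.1.nd (pert_bd n c (ev X s1) v).diff (pj sp c) (s := s1)
    ((hmin.local hr (pert_pb n c _ v) (pert_bd n c _ v)).self_of_nhds.mono fun ε hε => by
      have : c ∈ Zer sp (f (ev (X' ε) s1) + q (ev (X' ε) s1) +
        ε • pert G sp n c (ev X s1) v (ev (X' ε) s1)) := by rw [hε.2, hZ]; exact hc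
      have h2 := mem_Zer.1 this
      exact h2)
  rw [ContinuousLinearMap.proj_apply, pert_match n v (isIso_refl c) (Match.refl c _), tr_self] at h1
  refine (congrArg norm h1).le.trans ?_
  rw [norm_neg, mul_assoc]
  exact (norm_le_pi_norm _ c).trans ((hB y s1).trans (mul_le_mul_of_nonneg_left hr.bd hB0))

open Classical in
/-- projection onto a set of nodes -/
noncomputable def prj (sp : C → L) (Z : Finset C) : (∀ c, V (sp c)) →L[ℝ] ∀ c, V (sp c) :=
  ContinuousLinearMap.pi fun i => if i ∈ Z then pj sp i else 0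

theorem prj_mem {Z : Finset C} {i : C} (hi : i ∈ Z) (z : ∀ c, V (sp c)) : prj sp Z z i = z i := by
  simp [prj, hi]

theorem prj_not {Z : Finset C} {i : C} (hi : i ∉ Z) (z : ∀ c, V (sp c)) : prj sp Z z i = 0 := by
  simp [prj, hi]

theorem IsMin.steady (hsp : ∀ c d, G.nodeT c d → sp c = sp d) (hnt : ∀ c, Nontrivial (V (sp c)))
    (hf : PB G sp f) (h : IsMin G sp l f w0 T0 δ q X T s0) {c : C}
    (hc : c ∈ Zer sp (f (ev X s0) + q (ev X s0))) (s : ℝ) : ev X s c = ev X s0 c := by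
  set Z := Zer sp (f (ev X s0) + q (ev X s0)) with hZ
  have := invariant h.1.nd.cd h.1.nd.sol (prj sp Z) (ev X s0) (fun z => ?_) (s0 := s0) (by simp) s
  · have h1 := congrFun this c
    rw [prj_mem hc] at h1
    exact sub_eq_zero.1 h1
  · funext i
    by_cases hi : i ∈ Z
    · rw [prj_mem hi]
      have h1 : ∀ j ∈ Z, (z - prj sp Z (z - ev X s0)) j = ev X s0 j := fun j hj => by
        simp [prj_mem hj]
      rw [(hf.add h.1.pb).dep (h1 i hi) fun e => h1 _ (h.closed hsp hnt hi e)]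
      exact mem_Zer.1 hi
    · exact prj_not hi _

/-- the contradiction at an oscillating node -/
theorem IsMin.osc (hsp : ∀ c d, G.nodeT c d → sp c = sp d) (hnt : ∀ c, Nontrivial (V (sp c)))
    (h : IsMin G sp l f w0 T0 δ q X T s0) {c d : C} (hcd : sp c = sp d)
    (hc : c ∉ Zer sp (f (ev X s0) + q (ev X s0))) {φ : ℝ}
    (hrel : ∀ᶠ s1 in 𝓝 s0, ∀ K p X' TT y τ, PB G sp p → Bd p →
      Resp l (fun z => f z + q z) X T K p X' TT y τ →
      ∀ᶠ s' in 𝓝 s1, ∀ᶠ ε in 𝓝 (0 : ℝ), st sp (ev (X' ε) s') c = st sp (ev (X' ε) (s' + φ)) d)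
    (hno : ∀ᶠ s1 in 𝓝 s0, ¬ ∃ β : G.In c ≃ G.In d, G.IsIso β ∧
      Match G sp β (ev X s1) (ev X (s1 + φ))) : False := by
  rw [mem_Zer] at hc
  obtain ⟨s1, ⟨hrel1, hno1⟩, hlim⟩ := key_bump hsp X (h.1.nd.sol s0) (c := c) (Or.inl rfl)
    (smul_ne_zero h.1.nd.pos.ne' hc) (hrel.and hno)
  obtain ⟨v, hv⟩ := exists_ne (0 : V (sp c))
  obtain ⟨K, hK0, hK⟩ := response h.1.nd
  obtain ⟨B, hB0, hB⟩ := h.1.nd.fd_bound
  have hv' : tr V (sp c) (sp d) v ≠ 0 := fun h' => hv ((tr_eq_zero hcd).1 h')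
  refine contra_small (hlim v) (norm_pos_iff.2 hv') (K := 2 * B * K) ?_
  filter_upwards [pert_ev hsp v hno1] with n hn
  obtain ⟨X', TT, y, τ, hr⟩ := hK _ ((pert_bd (G := G) n c (ev X s1) v).1.of_le (by simp))
  have h1 := hr.d1 h.1.nd ((tr V (sp c) (sp d)).comp (pj sp c)) (pj sp d) (s := s1) (φ := φ)
    ((hrel1 _ _ _ _ _ _ (pert_pb n c _ v) (pert_bd n c _ v) hr).mono fun s' hs' =>
      hs'.mono fun ε hε => (st_iff.1 hε).2)
  simp only [ContinuousLinearMap.comp_apply, ContinuousLinearMap.proj_apply, hn, sub_zero,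
    pert_match n v (isIso_refl c) (Match.refl c _), tr_self] at h1
  refine (congrArg norm h1).le.trans ?_
  have h2 := (norm_le_pi_norm _ d).trans (hB y (s1 + φ))
  have h3 := (norm_tr_le (sp c) (sp d) _).trans ((norm_le_pi_norm _ c).trans (hB y s1))
  have h4 := mul_le_mul_of_nonneg_left hr.bd hB0
  refine (norm_sub_le _ _).trans ?_
  nlinarith

/-- polydiagonal supported on a set of nodes -/
def Dg (sp : C → L) (Z : Finset C) (R : C → C → Prop) : Submodule ℝ (∀ c, V (sp c)) where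
  carrier := {w | (∀ i, i ∉ Z → w i = 0) ∧
    ∀ i ∈ Z, ∀ j ∈ Z, R i j → tr V (sp i) (sp j) (w i) = w j}
  zero_mem' := ⟨fun _ _ => rfl, fun _ _ _ _ _ => by simp⟩
  add_mem' := fun {a b} ha hb => ⟨fun i hi => by simp [ha.1 i hi, hb.1 i hi],
    fun i hi j hj hR => by simp [ha.2 i hi j hj hR, hb.2 i hi j hj hR]⟩
  smul_mem' := fun c {a} ha => ⟨fun i hi => by simp [ha.1 i hi],
    fun i hi j hj hR => by simp [ha.2 i hi j hj hR]⟩

/-- input equivalence at a state -/
def inEq (G : Network C A) (sp : C → L) (a : ∀ c, V (sp c)) : Setoid C where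
  r i j := ∃ β : G.In i ≃ G.In j, G.IsIso β ∧ Match G sp β a a
  iseqv := ⟨fun i => ⟨_, isIso_refl i, Match.refl i a⟩,
    fun ⟨_, h1, h2⟩ => ⟨_, h1.symm, h2.symm⟩,
    fun ⟨_, h1, h2⟩ ⟨_, h3, h4⟩ => ⟨_, h1.trans h3, h2.trans h4⟩⟩

theorem realize (hsp : ∀ c d, G.nodeT c d → sp c = sp d) (a : ∀ c, V (sp c)) (w : ∀ c, V (sp c))
    (hw : ∀ i j, inEq G sp a i j → tr V (sp i) (sp j) (w i) = w j) :
    ∃ p, PB G sp p ∧ Bd p ∧ p a = w := by
  classical
  let rep : C → C := fun i => (Quotient.mk (inEq G sp a) i).out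
  have hrep : ∀ i, inEq G sp a (rep i) i := fun i => Quotient.mk_out (s := inEq G sp a) i
  have hrep' : ∀ i j, inEq G sp a i j → rep i = rep j := fun i j hij => by
    simp only [rep, Quotient.sound hij]
  have h1 : ∀ w' : C × C, ∀ᶠ n in atTop, ¬ inEq G sp a w'.1 w'.2 →
      pert G sp n w'.1 a (w w'.1) a w'.2 = 0 := by
    intro w'
    by_cases h : inEq G sp a w'.1 w'.2
    · simp [h]
    · exact (pert_ev hsp _ h).mono fun n hn _ => hn
  obtain ⟨n, hn⟩ := (eventually_all.2 h1).exists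
  refine ⟨fun z => ∑ k ∈ Finset.univ.filter (fun k => rep k = k), pert G sp n k a (w k) z,
    PB.sum _ fun k _ => pert_pb n k a _, Bd.sum _ fun k _ => pert_bd n k a _, ?_⟩
  funext i
  beta_reduce
  rw [Finset.sum_apply, Finset.sum_eq_single (rep i)]
  · obtain ⟨β, h1, h2⟩ := hrep i
    rw [pert_match n _ h1 h2, hw _ _ (hrep i)]
  · intro k hk hki
    refine hn (k, i) fun h => hki ?_
    rw [← hrep' _ _ h, (Finset.mem_filter.1 hk).2]
  · intro h
    exact (h (Finset.mem_filter.2 ⟨Finset.mem_univ _, hrep' _ _ (hrep i)⟩)).elim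

theorem IsMin.equil (hsp : ∀ c d, G.nodeT c d → sp c = sp d) (hnt : ∀ c, Nontrivial (V (sp c)))
    (hf : PB G sp f) (h : IsMin G sp l f w0 T0 δ q X T s0) {c d : C}
    (hc : c ∈ Zer sp (f (ev X s0) + q (ev X s0))) (hd : d ∈ Zer sp (f (ev X s0) + q (ev X s0)))
    (hcd : st sp (ev X s0) c = st sp (ev X s0) d) : inEq G sp (ev X s0) c d := by
  classical
  set Z := Zer sp (f (ev X s0) + q (ev X s0)) with hZ
  set a := ev X s0 with ha
  have hg : PB G sp fun z => f z + q z := hf.add h.1.pb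
  have hsat : ∀ i j, inEq G sp a i j → i ∈ Z → j ∈ Z := by
    rintro i j ⟨β, h1, h2⟩ hi
    have := (st_iff.1 (hg i j β h1 a a h2)).2
    have hi' : (f a + q a) i = 0 := mem_Zer.1 hi
    refine mem_Zer.2 (this.symm.trans ?_)
    simp only [hi', map_zero]
  let D1 := Dg (V := V) sp Z fun i j => st sp a i = st sp a j
  let D2 := Dg (V := V) sp Z (inEq G sp a)
  have h12 : D1 ≤ D2 := fun w hw =>
    ⟨hw.1, fun i hi j hj ⟨_, _, hm⟩ => hw.2 i hi j hj hm.1⟩
  let J : (∀ c, V (sp c)) →L[ℝ] ∀ c, V (sp c) := (prj sp Z).comp (fderiv ℝ (fun z => f z + q z) a)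
  have hdep : ∀ (u : ∀ c, V (sp c)), (∀ i ∈ Z, u i = 0) → ∀ i ∈ Z,
      fderiv ℝ (fun z => f z + q z) a u i = 0 := by
    intro u hu i hi
    have h1 : HasDerivAt (fun t : ℝ => a + t • u) u 0 := by
      simpa using ((hasDerivAt_id (0 : ℝ)).smul_const u).const_add a
    have h2 := (pj sp i).hasFDerivAt.comp_hasDerivAt (0 : ℝ)
      ((h.1.nd.cd.differentiable one_ne_zero (a + (0 : ℝ) • u)).hasFDerivAt.comp_hasDerivAt
        (0 : ℝ) h1)
    rw [zero_smul, add_zero] at h2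
    refine h2.unique ((hasDerivAt_const (0 : ℝ) ((f a + q a) i)).congr_of_eventuallyEq
      (Eventually.of_forall fun t => ?_))
    exact hg.dep (x := a + t • u) (y := a) (by simp [hu i hi])
      fun e => by simp [hu _ (h.closed hsp hnt hi e)]
  have h21 : D2 ≤ D1.map (J : (∀ c, V (sp c)) →ₗ[ℝ] ∀ c, V (sp c)) := by
    intro w hw
    obtain ⟨p, hp1, hp2, hp3⟩ := realize hsp a (-w) fun i j hij => by
      by_cases hi : i ∈ Z
      · simp [hw.2 i hi j (hsat i j hij hi) hij]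
      · have hj : j ∉ Z := fun hj => hi (hsat j i ((inEq G sp a).symm hij) hj)
        simp [hw.1 i hi, hw.1 j hj]
    obtain ⟨K, -, hK⟩ := response h.1.nd
    obtain ⟨X', TT, y, τ, hr⟩ := hK p (hp2.1.of_le (by simp))
    have hloc := (h.local hr hp1 hp2).self_of_nhds
    refine ⟨prj sp Z (ev y s0), ⟨fun i hi => prj_not hi _, fun i hi j hj hij => ?_⟩, ?_⟩
    · rw [prj_mem hi, prj_mem hj]
      exact hr.d0 ((tr V (sp i) (sp j)).comp (pj sp i)) (pj sp j) (hloc.mono fun ε hε =>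
        (st_iff.1 (mem_Pat.1 (hε.1 ▸ mem_Pat.2 hij))).2)
    · funext i
      change prj sp Z (fderiv ℝ (fun z => f z + q z) a (prj sp Z (ev y s0))) i = w i
      by_cases hi : i ∈ Z
      · rw [prj_mem hi]
        have h1 := hr.d2 h.1.nd hp2.diff (pj sp i) (s := s0) (hloc.mono fun ε hε => by
          have h3 : i ∈ Zer sp (f (ev (X' ε) s0) + q (ev (X' ε) s0) + ε • p (ev (X' ε) s0)) := by
            rw [hε.2]; exact hi
          have h4 := mem_Zer.1 h3
          exact h4)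
        rw [← ha, hp3] at h1
        have h2 := hdep (ev y s0 - prj sp Z (ev y s0)) (fun j hj => by simp [prj_mem hj]) i hi
        rw [map_sub, Pi.sub_apply, sub_eq_zero] at h2
        rw [← h2]
        exact (neg_injective h1).symm
      · rw [prj_not hi, hw.1 i hi]
  have heq : D1 = D2 := Submodule.eq_of_le_of_finrank_le h12
    ((Submodule.finrank_mono h21).trans (Submodule.finrank_map_le _ _))
  obtain ⟨v, hv⟩ := exists_ne (0 : V (sp c))
  let w : ∀ c, V (sp c) := fun j => if inEq G sp a c j then tr V (sp c) (sp j) v else 0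
  have hw : w ∈ D2 := by
    refine ⟨fun i hi => if_neg fun h' => hi (hsat c i h' hc), fun i _ j _ hij => ?_⟩
    by_cases hi : inEq G sp a c i
    · simp only [w, if_pos hi, if_pos ((inEq G sp a).trans hi hij)]
      obtain ⟨_, _, hm⟩ := hij
      exact tr_tr (st_iff.1 hm.1).1 _ _
    · have hj : ¬ inEq G sp a c j := fun hj =>
        hi ((inEq G sp a).trans hj ((inEq G sp a).symm hij))
      simp only [w, if_neg hi, if_neg hj, map_zero]
  rw [← heq] at hw
  have h1 := hw.2 c hc d hd hcd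
  by_contra hcon
  simp only [w, if_pos ((inEq G sp a).refl c), if_neg hcon, tr_self] at h1
  exact hv ((tr_eq_zero (st_iff.1 hcd).1).1 h1)

theorem match_iff {c d : C} (β : G.In c ≃ G.In d) {z z' : ∀ c, V (sp c)}
    (h : Pat sp z' = Pat sp z) (hm : Match G sp β z' z') : Match G sp β z z :=
  ⟨mem_Pat.1 (h ▸ mem_Pat.2 hm.1), fun e => mem_Pat.1 (h ▸ mem_Pat.2 (hm.2 e))⟩

theorem IsMin.balanced (hsp : ∀ c d, G.nodeT c d → sp c = sp d)
    (hnt : ∀ c, Nontrivial (V (sp c))) (hf : PB G sp f) (h : IsMin G sp l f w0 T0 δ q X T s0)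
    {c d : C} (hcd : st sp (ev X s0) c = st sp (ev X s0) d) : inEq G sp (ev X s0) c d := by
  by_cases hc : c ∈ Zer sp (f (ev X s0) + q (ev X s0))
  · refine h.equil hsp hnt hf hc ?_ hcd
    have h1 : ∀ᶠ s in 𝓝 s0, pj sp d (ev X s) = ev X s0 d := h.near.mono fun s hs => by
      have h2 := (st_iff.1 (mem_Pat.1 (hs.2.1 ▸ mem_Pat.2 hcd))).2
      rw [h.steady hsp hnt hf hc s, (st_iff.1 hcd).2] at h2
      exact h2.symm
    have h2 := ((pj sp d).hasFDerivAt.comp_hasDerivAt s0 (h.1.nd.sol s0)).unique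
      ((hasDerivAt_const s0 (ev X s0 d)).congr_of_eventuallyEq
        (f₁ := fun s => pj sp d (ev X s)) h1)
    exact mem_Zer.2 ((smul_eq_zero.1 h2).resolve_left h.1.nd.pos.ne')
  · by_contra hcon
    refine h.osc hsp hnt (st_iff.1 hcd).1 hc (φ := 0) (h.near.mono fun s1 hs1 => ?_)
      (h.near.mono fun s1 hs1 => ?_)
    · intro K p X' TT y τ hp hb hr
      refine (hs1.1.local hr hp hb).mono fun s' hs' => hs'.mono fun ε hε => ?_
      rw [add_zero]
      exact mem_Pat.1 (hε.1 ▸ hs1.2.1 ▸ mem_Pat.2 hcd)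
    · rintro ⟨β, h1, h2⟩
      rw [add_zero] at h2
      exact hcon ⟨β, h1, match_iff β hs1.2.1 h2⟩

theorem IsMin.global (hsp : ∀ c d, G.nodeT c d → sp c = sp d)
    (hnt : ∀ c, Nontrivial (V (sp c))) (hf : PB G sp f) (h : IsMin G sp l f w0 T0 δ q X T s0)
    {c d : C} (hcd : st sp (ev X s0) c = st sp (ev X s0) d) (s : ℝ) :
    st sp (ev X s) c = st sp (ev X s) d := by
  set a := ev X s0 with ha
  let S : Setoid C := Setoid.ker (st sp a)
  let rep : C → C := fun i => (Quotient.mk S i).out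
  have hrep : ∀ i, st sp a (rep i) = st sp a i := fun i => Quotient.mk_out (s := S) i
  have hrep' : ∀ i j, st sp a i = st sp a j → rep i = rep j := fun i j hij => by
    simp only [rep, Quotient.sound (s := S) hij]
  let P : (∀ c, V (sp c)) →L[ℝ] ∀ c, V (sp c) :=
    ContinuousLinearMap.pi fun j => (tr V (sp (rep j)) (sp j)).comp (pj sp (rep j))
  have hP : ∀ z j, P z j = tr V (sp (rep j)) (sp j) (z (rep j)) := fun _ _ => rfl
  have hPst : ∀ z i j, st sp a i = st sp a j → st sp (P z) i = st sp (P z) j := by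
    intro z i j hij
    refine st_iff.2 ⟨(st_iff.1 hij).1, ?_⟩
    rw [hP, hP, tr_tr (st_iff.1 hij).1, hrep' i j hij]
  have := invariant h.1.nd.cd h.1.nd.sol (ContinuousLinearMap.id ℝ _ - P) 0 (fun z => ?_)
    (s0 := s0) ?_ s
  · have h1 : ev X s = P (ev X s) := by simpa [sub_eq_zero] using this
    rw [h1]
    exact hPst _ c d hcd
  · funext j
    obtain ⟨β, h1, h2⟩ := h.balanced hsp hnt hf (hrep j)
    have h3 := (st_iff.1 ((hf.add h.1.pb) _ _ β h1 (P z) (P z)
      ⟨hPst z _ _ h2.1, fun e => hPst z _ _ (h2.2 e)⟩)).2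
    simp only [sub_zero, ContinuousLinearMap.sub_apply, ContinuousLinearMap.id_apply,
      sub_sub_cancel, Pi.sub_apply, hP, Pi.zero_apply]
    rw [h3, sub_self]
  · funext j
    simp only [sub_zero, ContinuousLinearMap.sub_apply, ContinuousLinearMap.id_apply,
      Pi.sub_apply, hP, Pi.zero_apply]
    rw [← ha, (st_iff.1 (hrep j)).2, sub_self]

end Pool.Agent.H827Z.Net
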