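import Pool.Agent.H827Z.Net.Per

set_option autoImplicit false
set_option linter.unusedSectionVars false

open Set Filter Topology

namespace Pool.Agent.H827Z.Net

variable {E : Type*} [NormedAddCommGroup E] [NormedSpace ℝ E]

/-- composition operator -/
def Nm {F : Type*} [TopologicalSpace F] (g : E → F) (hg : Continuous g) (x : Cc E) : Cc F :=
  ⟨fun θ => g (x θ), hg.comp x.continuous⟩

@[simp] theorem ev_Nm {F : Type*} [NormedAddCommGroup F] (g : E → F) (hg : Continuous g)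
    (x : Cc E) (s : ℝ) : ev (Nm g hg x) s = g (ev x s) := rfl

theorem Nm_cont {F : Type*} [TopologicalSpace F] (g : E → F) (hg : Continuous g) :
    Continuous (Nm g hg) :=
  ContinuousMap.continuous_postcomp (⟨g, hg⟩ : C(E, F))

/-- pointwise application of an operator-valued function -/
noncomputable def BL : Cc (E →L[ℝ] E) →L[ℝ] Cc E →L[ℝ] Cc E :=
  LinearMap.mkContinuous₂
    (LinearMap.mk₂ ℝ (fun (A : Cc (E →L[ℝ] E)) (y : Cc E) =>
        (⟨fun θ => A θ (y θ), A.continuous.clm_apply y.continuous⟩ : Cc E))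
      (fun _ _ _ => by ext; simp) (fun _ _ _ => by ext; simp)
      (fun _ _ _ => by ext; simp) (fun _ _ _ => by ext; simp)) 1
    fun A y => by
      rw [one_mul, ContinuousMap.norm_le _ (by positivity)]
      intro θ
      exact ((A θ).le_opNorm _).trans
        (mul_le_mul (A.norm_coe_le_norm θ) (y.norm_coe_le_norm θ) (norm_nonneg _) (norm_nonneg A))

@[simp] theorem ev_BL (A : Cc (E →L[ℝ] E)) (y : Cc E) (s : ℝ) :
    ev (BL A y) s = ev A s (ev y s) := rfl

theorem Nm_hasFDerivAt {g : E → E} (hg : ContDiff ℝ 1 g) (x : Cc E) :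
    HasFDerivAt (Nm g hg.continuous)
      (BL (Nm (fderiv ℝ g) (hg.continuous_fderiv one_ne_zero) x)) x := by
  rw [hasFDerivAt_iff_isLittleO_nhds_zero, Asymptotics.isLittleO_iff]
  intro ε hε
  obtain ⟨δ, hδ, hball⟩ := Metric.continuousAt_iff.1
    ((Nm_cont (fderiv ℝ g) (hg.continuous_fderiv one_ne_zero)).continuousAt (x := x)) ε hε
  filter_upwards [Metric.ball_mem_nhds (0 : Cc E) hδ] with y hy
  rw [mem_ball_zero_iff] at hy
  rw [ContinuousMap.norm_le _ (by positivity)]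
  intro θ
  have hb : ∀ a ∈ Metric.ball (x θ) δ, ‖fderiv ℝ g a - fderiv ℝ g (x θ)‖ ≤ ε := by
    intro a ha
    have h1 : dist (x + ContinuousMap.const _ (a - x θ)) x < δ := by
      rw [dist_eq_norm, add_sub_cancel_left]
      refine lt_of_le_of_lt ((ContinuousMap.norm_le _ (norm_nonneg (a - x θ))).2 fun _ => le_rfl) ?_
      rwa [← dist_eq_norm]
    have h2 := (hball h1).le
    rw [dist_eq_norm] at h2
    have h3 := (ContinuousMap.norm_coe_le_norm _ θ).trans h2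
    simpa [Nm] using h3
  have := (convex_ball (x θ) δ).norm_image_sub_le_of_norm_fderiv_le'
    (f := g) (φ := fderiv ℝ g (x θ)) (x := x θ) (y := x θ + y θ)
    (fun a _ => hg.differentiable one_ne_zero a) hb (Metric.mem_ball_self hδ)
    (by rw [Metric.mem_ball, dist_eq_norm, add_sub_cancel_left]
        exact (y.norm_coe_le_norm θ).trans_lt hy)
  rw [add_sub_cancel_left] at this
  exact this.trans (mul_le_mul_of_nonneg_left (y.norm_coe_le_norm θ) hε.le)

theorem Nm_contDiff {g : E → E} (hg : ContDiff ℝ 1 g) : ContDiff ℝ 1 (Nm g hg.continuous) :=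
  contDiff_one_iff_hasFDerivAt.2 ⟨_, BL.continuous.comp (Nm_cont _ _), Nm_hasFDerivAt hg⟩

variable [CompleteSpace E]

/-- the linearised periodic problem -/
noncomputable def Lin (A : Cc (E →L[ℝ] E)) (v : Cc E) (T : ℝ) (l : E →L[ℝ] ℝ) :
    Cc E × ℝ →L[ℝ] Cc E × ℝ :=
  (ContinuousLinearMap.fst ℝ (Cc E) ℝ - c0 ∘L ContinuousLinearMap.fst ℝ (Cc E) ℝ -
    JL ∘L (T • (BL A ∘L ContinuousLinearMap.fst ℝ (Cc E) ℝ) +
      (ContinuousLinearMap.snd ℝ (Cc E) ℝ).smulRight v)).prod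
    (l ∘L evL 0 ∘L ContinuousLinearMap.fst ℝ (Cc E) ℝ)

theorem Lin_apply (A : Cc (E →L[ℝ] E)) (v : Cc E) (T : ℝ) (l : E →L[ℝ] ℝ) (u : Cc E × ℝ) :
    Lin A v T l u = (u.1 - c0 u.1 - JL (T • BL A u.1 + u.2 • v), l (ev u.1 0)) := rfl

/-- the periodic problem -/
noncomputable def Fm (l : E →L[ℝ] ℝ) (g : E → E) (hg : Continuous g) (u : Cc E × ℝ) : Cc E × ℝ :=
  (u.1 - c0 u.1 - JL (u.2 • Nm g hg u.1), l (ev u.1 0))

theorem Fm_hasFDerivAt (l : E →L[ℝ] ℝ) {g : E → E} (hg : ContDiff ℝ 1 g) (u : Cc E × ℝ) :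
    HasFDerivAt (Fm l g hg.continuous)
      (Lin (Nm (fderiv ℝ g) (hg.continuous_fderiv one_ne_zero) u.1) (Nm g hg.continuous u.1)
        u.2 l) u := by
  have h1 : HasFDerivAt (fun u : Cc E × ℝ => Nm g hg.continuous u.1) _ u :=
    (Nm_hasFDerivAt hg u.1).comp u hasFDerivAt_fst
  have h2 := (hasFDerivAt_snd (𝕜 := ℝ) (p := u)).smul h1
  have h3 := JL.hasFDerivAt.comp u h2
  have h4 := ((hasFDerivAt_fst (𝕜 := ℝ) (p := u)).sub
    (c0.hasFDerivAt.comp u hasFDerivAt_fst)).sub h3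
  have h5 := (l ∘L evL 0 ∘L ContinuousLinearMap.fst ℝ (Cc E) ℝ).hasFDerivAt (x := u)
  exact h4.prodMk h5

/-- a nondegenerate periodic solution in rescaled time -/
structure ND (l : E →L[ℝ] ℝ) (g : E → E) (x : Cc E) (T : ℝ) : Prop where
  cd : ContDiff ℝ 1 g
  pos : 0 < T
  sol : ∀ s, HasDerivAt (ev x) (T • g (ev x s)) s
  inv : (Lin (Nm (fderiv ℝ g) (cd.continuous_fderiv one_ne_zero) x) (Nm g cd.continuous x)
    T l).IsInvertible

/-- the data of a linear response -/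
structure Resp (l : E →L[ℝ] ℝ) (g : E → E) (x : Cc E) (T C : ℝ) (p : E → E)
    (X : ℝ → Cc E) (TT : ℝ → ℝ) (y : Cc E) (τ : ℝ) : Prop where
  nd : ∀ᶠ ε in 𝓝 (0 : ℝ), ND l (fun z => g z + ε • p z) (X ε) (TT ε)
  X0 : X 0 = x
  T0 : TT 0 = T
  dX : HasDerivAt X y 0
  dT : HasDerivAt TT τ 0
  ode : ∀ s, HasDerivAt (ev y)
    (T • fderiv ℝ g (ev x s) (ev y s) + τ • g (ev x s) + T • p (ev x s)) s
  bd : ‖y‖ ≤ C * ∫ r in (0 : ℝ)..1, ‖p (ev x r)‖

theorem response {l : E →L[ℝ] ℝ} {g : E → E} {x : Cc E} {T : ℝ} (h : ND l g x T) :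
    ∃ C, 0 ≤ C ∧ ∀ p : E → E, ContDiff ℝ 1 p → ∃ X TT y τ, Resp l g x T C p X TT y τ := by
  set L := Lin (Nm (fderiv ℝ g) (h.cd.continuous_fderiv one_ne_zero) x)
    (Nm g h.cd.continuous x) T l with hL
  refine ⟨‖L.inverse‖ * 3 * T, by have := h.pos; positivity, fun p hp => ?_⟩
  let G : ℝ × (Cc E × ℝ) → Cc E × ℝ := fun w =>
    (w.2.1 - c0 w.2.1 - JL (w.2.2 • (Nm g h.cd.continuous w.2.1 + w.1 • Nm p hp.continuous w.2.1)),
      l (evL 0 w.2.1))
  have hG : ContDiff ℝ 1 G := by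
    have h1 := Nm_contDiff h.cd
    have h2 := Nm_contDiff hp
    have h3 : ContDiff ℝ 1 fun w : ℝ × (Cc E × ℝ) => w.2.1 := contDiff_snd.fst
    exact ((h3.sub (c0.contDiff.comp h3)).sub (JL.contDiff.comp
      (contDiff_snd.snd.smul ((h1.comp h3).add (contDiff_fst.smul (h2.comp h3)))))).prodMk
      (l.contDiff.comp ((evL 0).contDiff.comp h3))
  have hcd : ∀ ε : ℝ, ContDiff ℝ 1 fun z => g z + ε • p z := fun ε => h.cd.add (hp.const_smul ε)
  have hGF : ∀ ε, (fun u => G (ε, u)) = Fm l (fun z => g z + ε • p z) (hcd ε).continuous :=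
    fun ε => rfl
  have hpart : ∀ (ε : ℝ) (u : Cc E × ℝ), fderiv ℝ G (ε, u) ∘L .inr ℝ ℝ (Cc E × ℝ) =
      Lin (Nm (fderiv ℝ fun z => g z + ε • p z) ((hcd ε).continuous_fderiv one_ne_zero) u.1)
        (Nm (fun z => g z + ε • p z) (hcd ε).continuous u.1) u.2 l := by
    intro ε u
    have h1 : HasFDerivAt (fun u => G (ε, u)) (fderiv ℝ G (ε, u) ∘L .inr ℝ ℝ (Cc E × ℝ)) u :=
      (hG.differentiable one_ne_zero (ε, u)).hasFDerivAt.comp u (hasFDerivAt_prodMk_right ε u)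
    rw [hGF] at h1
    exact h1.unique (Fm_hasFDerivAt l (hcd ε) u)
  have hpart0 : fderiv ℝ G (0, (x, T)) ∘L .inr ℝ ℝ (Cc E × ℝ) = L := by
    rw [hpart, hL]
    have : (fun z => g z + (0 : ℝ) • p z) = g := by funext z; simp
    simp only [this]
  have hs : HasStrictFDerivAt G (fderiv ℝ G (0, (x, T))) (0, (x, T)) :=
    hG.contDiffAt.hasStrictFDerivAt one_ne_zero
  have hinv : (fderiv ℝ G (0, (x, T)) ∘L .inr ℝ ℝ (Cc E × ℝ)).IsInvertible := hpart0 ▸ h.inv
  set ψ := hs.implicitFunctionOfProdDomain hinv with hψ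
  have hψ0 : ψ 0 = (x, T) :=
    (hs.eventually_apply_eq_iff_implicitFunctionOfProdDomain hinv).self_of_nhds.mp rfl
  have hψd := (hs.hasStrictFDerivAt_implicitFunctionOfProdDomain hinv).hasFDerivAt
  have hψe := hs.eventually_apply_implicitFunctionOfProdDomain hinv
  have hψt := hs.tendsto_implicitFunctionOfProdDomain hinv
  rw [← hψ] at hψd hψe hψt
  have hG0 : (G (0, (x, T))).1 = 0 := by
    simp only [G, zero_smul, add_zero]
    rw [sub_eq_zero, eq_JL_iff]
    exact h.sol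
  have hinl : fderiv ℝ G (0, (x, T)) (1, 0) = (-JL (T • Nm p hp.continuous x), 0) := by
    have h1 : HasDerivAt (fun ε : ℝ => G (ε, (x, T))) (fderiv ℝ G (0, (x, T)) (1, 0)) 0 :=
      (hG.differentiable one_ne_zero (0, (x, T))).hasFDerivAt.comp_hasDerivAt (0 : ℝ)
        ((hasDerivAt_id (0 : ℝ)).prodMk (hasDerivAt_const (0 : ℝ) (x, T)))
    have h2 : HasDerivAt (fun ε : ℝ => G (ε, (x, T))) (-JL (T • Nm p hp.continuous x), 0) 0 := by
      have h3 : HasDerivAt (fun ε : ℝ => T • (Nm g h.cd.continuous x + ε • Nm p hp.continuous x))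
          (T • Nm p hp.continuous x) 0 := by
        have := (((hasDerivAt_id (0 : ℝ)).smul_const (Nm p hp.continuous x)).const_add
          (Nm g h.cd.continuous x)).const_smul T
        rw [one_smul] at this
        exact this
      exact ((JL.hasFDerivAt.comp_hasDerivAt (0 : ℝ) h3).const_sub (x - c0 x)).prodMk
        (hasDerivAt_const (0 : ℝ) (l (evL 0 x)))
    exact h1.unique h2
  set w : Cc E × ℝ := L.inverse (JL (T • Nm p hp.continuous x), 0) with hw
  have hψd' : HasDerivAt ψ w 0 := by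
    refine hψd.hasDerivAt.congr_deriv ?_
    rw [hpart0]
    simp only [ContinuousLinearMap.comp_apply, ContinuousLinearMap.inl_apply, hinl,
      ContinuousLinearMap.neg_apply, hw]
    rw [← map_neg]; simp
  have hLw : L w = (JL (T • Nm p hp.continuous x), 0) := by
    rw [hw]; exact h.inv.self_apply_inverse _
  refine ⟨fun ε => (ψ ε).1, fun ε => (ψ ε).2, w.1, w.2, ?_, by rw [hψ0], by rw [hψ0],
    hψd'.fst, hψd'.snd, ?_, ?_⟩
  · have hc : ContinuousAt (fun ε => fderiv ℝ G (ε, ψ ε) ∘L .inr ℝ ℝ (Cc E × ℝ)) 0 := by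
      refine ContinuousAt.clm_comp ?_ continuousAt_const
      exact (hG.continuous_fderiv one_ne_zero).continuousAt.comp
        (continuousAt_id.prodMk hψd.continuousAt)
    have hopen : ∀ᶠ ε in 𝓝 (0 : ℝ),
        (fderiv ℝ G (ε, ψ ε) ∘L .inr ℝ ℝ (Cc E × ℝ)).IsInvertible := by
      refine hc.eventually (ContinuousLinearEquiv.isOpen.mem_nhds ?_)
      simp only [hψ0]
      exact hinv
    have hT : ∀ᶠ ε in 𝓝 (0 : ℝ), 0 < (ψ ε).2 :=
      (continuous_snd.tendsto _ |>.comp hψt).eventually (lt_mem_nhds h.pos)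
    filter_upwards [hopen, hT, hψe] with ε h1 h2 h3
    refine ⟨hcd ε, h2, ?_, by rwa [hpart] at h1⟩
    have h4 : (G (ε, ψ ε)).1 = 0 := by rw [h3, hG0]
    simp only [G] at h4
    rw [sub_eq_zero, eq_JL_iff] at h4
    exact h4
  · have h1 := congrArg Prod.fst hLw
    simp only [hL, Lin_apply] at h1
    rw [sub_eq_iff_eq_add', ← map_add, eq_JL_iff] at h1
    exact h1
  · have h1 : ‖w‖ ≤ ‖L.inverse‖ * ‖JL (T • Nm p hp.continuous x)‖ := by
      rw [hw]
      refine (L.inverse.le_opNorm _).trans (le_of_eq ?_)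
      simp
    have h2 := JL_norm (Nm p hp.continuous x)
    rw [map_smul, norm_smul, Real.norm_eq_abs, abs_of_pos h.pos] at h1
    simp only [ev_Nm] at h2
    calc ‖w.1‖ ≤ ‖w‖ := norm_fst_le w
      _ ≤ ‖L.inverse‖ * (T * (3 * ∫ r in (0 : ℝ)..1, ‖p (ev x r)‖)) :=
        h1.trans (mul_le_mul_of_nonneg_left (mul_le_mul_of_nonneg_left h2 h.pos.le)
          (norm_nonneg L.inverse))
      _ = _ := by ring

end Pool.Agent.H827Z.Net
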