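import Mathlib

set_option autoImplicit false
set_option linter.unusedSectionVars false

open Set Filter Topology

namespace Pool.Agent.H827Z.Net

variable {E : Type*} [NormedAddCommGroup E] [NormedSpace ℝ E]

/-- continuous one-periodic functions -/
abbrev Cc (E : Type*) [TopologicalSpace E] := C(UnitAddCircle, E)

/-- the periodic function on the line -/
def ev (w : Cc E) : ℝ → E := fun s => w (s : UnitAddCircle)

omit [NormedSpace ℝ E] in
theorem ev_cont (w : Cc E) : Continuous (ev w) := w.continuous.comp (AddCircle.continuous_mk' 1)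

omit [NormedSpace ℝ E] in
theorem ev_per (w : Cc E) : Function.Periodic (ev w) 1 := fun s => by
  simp [ev]

omit [NormedSpace ℝ E] in
theorem ev_norm (w : Cc E) (s : ℝ) : ‖ev w s‖ ≤ ‖w‖ := w.norm_coe_le_norm _

omit [NormedSpace ℝ E] in
theorem ev_ext {w w' : Cc E} (h : ∀ s, ev w s = ev w' s) : w = w' := by
  ext θ
  induction θ using QuotientAddGroup.induction_on with
  | H s => exact h s

/-- build an element from a periodic function -/
def mk (h : ℝ → E) (hc : Continuous h) (hp : Function.Periodic h 1) : Cc E :=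
  ⟨hp.lift, continuous_coinduced_dom.mpr hc⟩

omit [NormedSpace ℝ E] in
@[simp] theorem ev_mk (h : ℝ → E) (hc : Continuous h) (hp : Function.Periodic h 1) (s : ℝ) :
    ev (mk h hc hp) s = h s := rfl

omit [NormedSpace ℝ E] in
theorem norm_le_of_ev {w : Cc E} {M : ℝ} (hM : 0 ≤ M) (h : ∀ s ∈ Icc (0 : ℝ) 1, ‖ev w s‖ ≤ M) :
    ‖w‖ ≤ M := by
  rw [ContinuousMap.norm_le _ hM]
  intro θ
  induction θ using QuotientAddGroup.induction_on with
  | H s =>
    have h1 : ev w s = ev w (Int.fract s) := by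
      have := (ev_per w).sub_int_mul_eq (x := s) ⌊s⌋
      rw [← this, Int.fract, mul_one]
    change ‖ev w s‖ ≤ M
    rw [h1]
    exact h _ ⟨Int.fract_nonneg s, (Int.fract_lt_one s).le⟩

@[simp] theorem ev_add (w w' : Cc E) (s : ℝ) : ev (w + w') s = ev w s + ev w' s := rfl
@[simp] theorem ev_sub (w w' : Cc E) (s : ℝ) : ev (w - w') s = ev w s - ev w' s := rfl
@[simp] theorem ev_neg (w : Cc E) (s : ℝ) : ev (-w) s = - ev w s := rfl
@[simp] theorem ev_smul (a : ℝ) (w : Cc E) (s : ℝ) : ev (a • w) s = a • ev w s := rfl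
@[simp] theorem ev_zero (s : ℝ) : ev (0 : Cc E) s = 0 := rfl
@[simp] theorem ev_const (v : E) (s : ℝ) : ev (ContinuousMap.const _ v : Cc E) s = v := rfl

/-- evaluation at a time as a continuous linear map -/
noncomputable def evL (s : ℝ) : Cc E →L[ℝ] E := ContinuousMap.evalCLM ℝ (s : UnitAddCircle)

@[simp] theorem evL_apply (s : ℝ) (w : Cc E) : evL s w = ev w s := rfl

/-- the constant function with the value at time zero -/
noncomputable def c0 : Cc E →L[ℝ] Cc E :=
  (ContinuousLinearMap.const ℝ UnitAddCircle).comp (evL 0)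

@[simp] theorem ev_c0 (w : Cc E) (s : ℝ) : ev (c0 w) s = ev w 0 := rfl

variable [CompleteSpace E]

/-- the periodic primitive -/
noncomputable def Jf (h : Cc E) : ℝ → E :=
  fun s => (∫ r in (0 : ℝ)..s, ev h r) - s • (∫ r in (0 : ℝ)..1, ev h r) + ∫ r in (0 : ℝ)..1, ev h r

theorem hasDerivAt_int (h : Cc E) (s : ℝ) :
    HasDerivAt (fun s => ∫ r in (0 : ℝ)..s, ev h r) (ev h s) s :=
  ((ev_cont h).integral_hasStrictDerivAt 0 s).hasDerivAt

theorem Jf_cont (h : Cc E) : Continuous (Jf h) := by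
  have : Continuous fun s => ∫ r in (0 : ℝ)..s, ev h r :=
    continuous_iff_continuousAt.2 fun s => (hasDerivAt_int h s).continuousAt
  unfold Jf
  fun_prop

omit [CompleteSpace E] in
theorem Jf_per (h : Cc E) : Function.Periodic (Jf h) 1 := by
  intro s
  have h1 := (ev_per h).intervalIntegral_add_eq_add 0 s
    (fun a b => (ev_cont h).intervalIntegrable a b)
  have h2 : ∫ r in (0 : ℝ)..s + 1, ev h r =
      (∫ r in (0 : ℝ)..s, ev h r) + ∫ r in (0 : ℝ)..1, ev h r := by
    simpa using h1
  simp only [Jf, h2, add_smul, one_smul]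
  abel

omit [CompleteSpace E] in
theorem Jf_bound (h : Cc E) {s : ℝ} (hs : s ∈ Icc (0 : ℝ) 1) :
    ‖Jf h s‖ ≤ 3 * ∫ r in (0 : ℝ)..1, ‖ev h r‖ := by
  have h1 : ‖∫ r in (0 : ℝ)..1, ev h r‖ ≤ ∫ r in (0 : ℝ)..1, ‖ev h r‖ :=
    intervalIntegral.norm_integral_le_integral_norm zero_le_one
  have h2 : ‖∫ r in (0 : ℝ)..s, ev h r‖ ≤ ∫ r in (0 : ℝ)..1, ‖ev h r‖ := by
    refine (intervalIntegral.norm_integral_le_integral_norm hs.1).trans ?_
    exact intervalIntegral.integral_mono_interval le_rfl hs.1 hs.2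
      (Eventually.of_forall fun _ => norm_nonneg _)
      ((ev_cont h).norm.intervalIntegrable _ _)
  have h3 : ‖s • ∫ r in (0 : ℝ)..1, ev h r‖ ≤ ∫ r in (0 : ℝ)..1, ‖ev h r‖ := by
    rw [norm_smul, Real.norm_eq_abs, abs_of_nonneg hs.1]
    exact (mul_le_of_le_one_left (norm_nonneg _) hs.2).trans h1
  unfold Jf
  have := norm_add_le ((∫ r in (0 : ℝ)..s, ev h r) - s • (∫ r in (0 : ℝ)..1, ev h r))
    (∫ r in (0 : ℝ)..1, ev h r)
  have := norm_sub_le (∫ r in (0 : ℝ)..s, ev h r) (s • (∫ r in (0 : ℝ)..1, ev h r))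
  linarith

omit [CompleteSpace E] [NormedSpace ℝ E] in
theorem int_norm_le (h : Cc E) : ∫ r in (0 : ℝ)..1, ‖ev h r‖ ≤ ‖h‖ := by
  have := intervalIntegral.integral_mono_on (μ := MeasureTheory.volume) zero_le_one
    ((ev_cont h).norm.intervalIntegrable 0 1) (continuous_const.intervalIntegrable 0 1)
    (fun r _ => ev_norm h r)
  simpa using this

omit [CompleteSpace E] [NormedSpace ℝ E] in
theorem int_norm_nonneg (h : Cc E) : 0 ≤ ∫ r in (0 : ℝ)..1, ‖ev h r‖ :=
  intervalIntegral.integral_nonneg zero_le_one fun _ _ => norm_nonneg _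

/-- the periodic primitive as a bounded operator -/
noncomputable def JL : Cc E →L[ℝ] Cc E :=
  LinearMap.mkContinuous
    { toFun := fun h => mk (Jf h) (Jf_cont h) (Jf_per h)
      map_add' := fun a b => ev_ext fun s => by
        simp only [ev_mk, Jf, ev_add, intervalIntegral.integral_add
          ((ev_cont a).intervalIntegrable _ _) ((ev_cont b).intervalIntegrable _ _), smul_add]
        abel
      map_smul' := fun c a => ev_ext fun s => by
        simp only [ev_mk, Jf, ev_smul, intervalIntegral.integral_smul, RingHom.id_apply, smul_add,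
          smul_sub, smul_comm c s] }
    3 fun h => norm_le_of_ev (by positivity) fun s hs =>
      (Jf_bound h hs).trans (by linarith [int_norm_le h])

theorem ev_JL (h : Cc E) (s : ℝ) : ev (JL h) s = Jf h s := rfl

theorem JL_norm (h : Cc E) : ‖JL h‖ ≤ 3 * ∫ r in (0 : ℝ)..1, ‖ev h r‖ :=
  norm_le_of_ev (by linarith [int_norm_nonneg h]) fun _ hs => Jf_bound h hs

theorem JL_const (v : E) : JL (ContinuousMap.const _ v : Cc E) = ContinuousMap.const _ v :=
  ev_ext fun s => by simp [ev_JL, Jf]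

theorem eq_JL_iff (w h : Cc E) : w - c0 w = JL h ↔ ∀ s, HasDerivAt (ev w) (ev h s) s := by
  constructor
  · intro H s
    have h0 : ∫ r in (0 : ℝ)..1, ev h r = 0 := by
      have := congrArg (fun u => ev u 0) H
      simpa [ev_JL, Jf] using this.symm
    have h1 : ev w = fun s => ev w 0 + ∫ r in (0 : ℝ)..s, ev h r := by
      funext s
      have := congrArg (fun u => ev u s) H
      simp only [ev_sub, ev_c0, ev_JL, Jf, h0, smul_zero, sub_zero, add_zero] at this
      rw [← this]; abel
    rw [h1]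
    exact (hasDerivAt_int h s).const_add _
  · intro H
    have h1 : ∀ s, ∫ r in (0 : ℝ)..s, ev h r = ev w s - ev w 0 := fun s =>
      intervalIntegral.integral_eq_sub_of_hasDerivAt (fun r _ => H r)
        ((ev_cont h).intervalIntegrable _ _)
    have h2 : ev w 1 = ev w 0 := by simpa using ev_per w 0
    exact ev_ext fun s => by simp [ev_JL, Jf, h1, h2]

end Pool.Agent.H827Z.Net
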